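import Pool.Agent.Lib.MP_a0a715_lc.Copies

/-!
# Correctness of the reduction
-/

namespace Pool.Agent.MPa0a715

/-! ### values of lists of bits -/

theorem val_eq_zero {l : List Bool} (h : ∀ i < l.length, l.getD i false = false) : val l = 0 := by
  induction l with
  | nil => rfl
  | cons b l ih =>
    rw [val, ih fun i hi => h (i + 1) (by simpa using hi)]
    have : b = false := h 0 (by simp)
    rw [this]
    rfl

theorem val_lt_of {l : List Bool} {k : ℕ} (h : ∀ i < l.length, k ≤ i → l.getD i false = false) :
    val l < 2 ^ k := by
  induction l generalizing k with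
  | nil => exact Nat.two_pow_pos k
  | cons b l ih =>
    cases k with
    | zero =>
      rw [val_eq_zero fun i hi => h i hi (Nat.zero_le _)]
      exact Nat.one_pos
    | succ k =>
      have := ih (k := k) fun i hi hik => h (i + 1) (by simpa using hi) (by omega)
      rw [val, pow_succ]
      have hb := Bool.toNat_le b
      omega

theorem le_val_of {l : List Bool} {k : ℕ} (h : l.getD k false = true) : 2 ^ k ≤ val l := by
  induction l generalizing k with
  | nil => simp at h
  | cons b l ih =>
    rw [val]
    cases k with
    | zero =>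
      rw [List.getD_cons_zero] at h
      rw [h]
      simp
    | succ k =>
      rw [List.getD_cons_succ] at h
      have := ih h
      rw [pow_succ]
      omega

theorem val_mono {l l' : List Bool} (hl : l.length = l'.length)
    (h : ∀ i < l.length, l.getD i false = true → l'.getD i false = true) : val l ≤ val l' := by
  induction l generalizing l' with
  | nil => exact Nat.zero_le _
  | cons b l ih =>
    cases l' with
    | nil => exact absurd hl (by simp)
    | cons b' l' =>
      rw [val, val]
      have h1 := ih (l' := l') (by simpa using hl) fun i hi =>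
        h (i + 1) (by simpa using hi)
      have h2 : b = true → b' = true := h 0 (by simp)
      have h3 : b.toNat ≤ b'.toNat := by
        revert h2
        cases b <;> cases b' <;> simp
      omega

theorem val_flip_lt {l : List Bool} {i : ℕ} (h : l.getD i false = true) :
    val (flip l i) < val l := by
  have hi : i < l.length := by
    by_contra hcon
    rw [List.getD_eq_default _ _ (by omega)] at h
    exact Bool.false_ne_true h
  rw [val_lt_iff _ _ (length_flip l i), length_flip]
  refine ⟨i, hi, ?_, h, ?_⟩
  · rw [getD_flip _ _ _ hi, if_pos rfl, h]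
    rfl
  · intro s hs his
    rw [getD_flip _ _ _ hs, if_neg (by omega)]

section
variable {C : Circuit} {m : ℕ}

/-- the values of the wires of the new circuit -/
def envR (C : Circuit) (m : ℕ) (y : List Bool) : Name → Bool :=
  cenv (inNames (3 * m + 2)) (toG 1 (blocks m C.gates C.outs)) (outNames m C.outs.length) y

theorem reduce_wf (hC : C.Valid) (hn : C.n = m + 1) (hm : 0 < m) :
    WF (inNames (3 * m + 2)) (toG 1 (blocks m C.gates C.outs)) :=
  wf_blocks (blocks_ok hm (fun k hk r hr => by have := hC.1 k hk r hr; rwa [hn] at this)
    fun o ho => by have := hC.2 o ho; rwa [hn] at this)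

theorem outs_ok (m : ℕ) (G : List Gate) (O : List ℕ) :
    ∀ o ∈ outNames m O.length, o ∈ (toG 1 (blocks m G O)).map Prod.fst := by
  have key : ∀ (b i : ℕ) (l : Blk), (blocks m G O)[b]? = some l → i < l.1 →
      (b + 1, i) ∈ (toG 1 (blocks m G O)).map Prod.fst := by
    intro b i l h1 h2
    exact toG_names.2 ⟨b, l, h1, Nat.add_comm b 1, h2⟩
  intro o ho
  unfold outNames at ho
  rw [List.mem_cons, List.mem_append, List.mem_append, List.mem_cons] at ho
  rcases ho with rfl | ho | ho | rfl | ho
  · exact key 3 0 _ rfl Nat.one_pos
  · obtain ⟨h1, h2⟩ := mem_ws.1 ho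
    obtain ⟨b, i⟩ := o
    dsimp only at h1
    subst h1
    exact key 50 i _ rfl (List.mem_range.1 h2)
  · obtain ⟨j, hj, rfl⟩ := List.mem_map.1 ho
    rw [List.mem_range] at hj
    exact key 35 _ _ rfl (by change 3 * m - 1 - j < 3 * m; omega)
  · exact key 19 0 _ rfl Nat.one_pos
  · obtain ⟨h1, h2⟩ := mem_ws.1 ho
    obtain ⟨b, i⟩ := o
    dsimp only at h1
    subst h1
    exact key 34 i _ rfl (List.mem_range.1 h2)

theorem reduce_valid (hC : C.Valid) (hn : C.n = m + 1) (hm : 0 < m) :
    (reduce m C.gates C.outs).Valid :=
  compile_valid (reduce_wf hC hn hm) (outs_ok m C.gates C.outs)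

theorem reduce_n (m : ℕ) (G : List Gate) (O : List ℕ) : (reduce m G O).n = 3 * m + 2 :=
  length_inNames _

theorem cz {b k : ℕ} {l : Blk} {bs : List Blk} (h : ∀ i, (l.2 i).1 ≠ none)
    (h' : ((toG (b + 1) bs).countP fun g => g.2.1 = none) ≤ k) :
    ((toG b (l :: bs)).countP fun g => g.2.1 = none) ≤ k := by
  rw [toG, List.countP_append]
  have : ((List.range l.1).map (fun i => (((b, i), l.2 i) : NG))).countP
      (fun g => g.2.1 = none) = 0 := by
    rw [List.countP_eq_zero]
    intro g hg
    obtain ⟨i, _, rfl⟩ := List.mem_map.1 hg
    simpa using h i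
  rw [this]
  omega

theorem cs {b k : ℕ} {l : Blk} {bs : List Blk} (h : l.1 = 1)
    (h' : ((toG (b + 1) bs).countP fun g => g.2.1 = none) ≤ k) :
    ((toG b (l :: bs)).countP fun g => g.2.1 = none) ≤ k + 1 := by
  rw [toG, List.countP_append]
  have : ((List.range l.1).map (fun i => (((b, i), l.2 i) : NG))).countP
      (fun g => g.2.1 = none) ≤ 1 := by
    refine List.countP_le_length.trans ?_
    rw [List.length_map, List.length_range, h]
  refine (Nat.add_le_add this h').trans ?_
  omega

theorem drf_ne (m : ℕ) (G : List Gate) (i : ℕ) : (drf m G i).1 ≠ none := by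
  unfold drf
  by_cases h : i / 4 < m + 1
  · rw [if_pos h]
    split_ifs <;> exact Option.some_ne_none _
  · rw [if_neg h]
    cases G[i / 4 - (m + 1)]? with
    | none => exact Option.some_ne_none _
    | some g => cases g <;> exact Option.some_ne_none _

theorem reduce_numNot (m : ℕ) (G : List Gate) (O : List ℕ) : (reduce m G O).numNot ≤ 2 := by
  refine (compile_numNot).trans ?_
  unfold blocks
  iterate 15 refine cz (fun i => Option.some_ne_none _) ?_
  refine cs rfl ?_
  iterate 2 refine cz (fun i => Option.some_ne_none _) ?_
  refine cs rfl ?_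
  iterate 18 refine cz (fun i => Option.some_ne_none _) ?_
  refine cz (drf_ne m G) ?_
  iterate 13 refine cz (fun i => Option.some_ne_none _) ?_
  exact le_rfl

theorem envR_sat (hC : C.Valid) (hn : C.n = m + 1) (hm : 0 < m) {y : List Bool}
    (hy : y.length = 3 * m + 2) :
    ∀ g ∈ toG 1 (blocks m C.gates C.outs), GSat (envR C m y) g :=
  compile_sat (reduce_wf hC hn hm) (outs_ok m C.gates C.outs) (by rw [length_inNames]; exact hy)

theorem envR_input (hC : C.Valid) (hn : C.n = m + 1) (hm : 0 < m) {y : List Bool}
    (hy : y.length = 3 * m + 2) {i : ℕ} (hi : i < 3 * m + 2) :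
    envR C m y (0, i) = y.getD i false := by
  have h := cenv_input (outs := outNames m C.outs.length) (reduce_wf hC hn hm)
    (by rw [length_inNames]; exact hy) (i := i) (by rw [length_inNames]; exact hi)
  have h1 : (inNames (3 * m + 2))[i]'(by rw [length_inNames]; exact hi) = (0, i) := by
    unfold inNames
    simp
  rw [h1] at h
  exact h

/-- the list of bits of the path block -/
def pathL (C : Circuit) (m : ℕ) (y : List Bool) : List Bool :=
  ((List.range (3 * m)).map fun j => envR C m y (36, 3 * m - 1 - j)) ++ [envR C m y (20, 0)]

/-- the list of bits of the highest block -/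
def topL (C : Circuit) (m : ℕ) (y : List Bool) : List Bool :=
  (List.range (3 * m + 2)).map fun i => envR C m y (35, i)

/-- the list of bits of the lowest block -/
def mainL (C : Circuit) (m : ℕ) (y : List Bool) : List Bool :=
  envR C m y (4, 0) :: (ws 51 (List.range C.outs.length)).map (envR C m y)

theorem reduce_out (C : Circuit) (m : ℕ) (y : List Bool) :
    (reduce m C.gates C.outs).out y = mainL C m y ++ (pathL C m y ++ topL C m y) := by
  unfold reduce
  rw [compile_out]
  change (outNames m C.outs.length).map (envR C m y) = _
  unfold outNames mainL pathL topL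
  rw [List.map_cons, List.map_append, List.map_append, List.map_map, List.map_cons,
    List.cons_append, List.append_assoc]
  unfold ws
  rw [List.map_map, List.map_map]
  rfl

theorem reduce_cost (C : Circuit) (m : ℕ) (y : List Bool) :
    (reduce m C.gates C.outs).cost y = 2 * (val (mainL C m y) + 2 ^ (C.outs.length + 1) *
      (val (pathL C m y) + 2 ^ (3 * m + 1) * val (topL C m y))) := by
  rw [Circuit.cost_eq, reduce_out, val_append, val_append]
  congr 4
  · unfold mainL ws
    simp
  · congr 2
    unfold pathL
    simp

theorem val_mainL_lt (C : Circuit) (m : ℕ) (y : List Bool) :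
    val (mainL C m y) < 2 ^ (C.outs.length + 1) := by
  have := val_lt (mainL C m y)
  have h : (mainL C m y).length = C.outs.length + 1 := by
    unfold mainL ws
    simp
  rwa [h] at this

theorem val_pathL_lt (C : Circuit) (m : ℕ) (y : List Bool) :
    val (pathL C m y) < 2 ^ (3 * m + 1) := by
  have := val_lt (pathL C m y)
  have h : (pathL C m y).length = 3 * m + 1 := by
    unfold pathL
    simp
  rwa [h] at this

theorem block_lt {a a' b b' M : ℕ} (ha : a < M) (hb : b < b') : a + M * b < a' + M * b' := by
  have h1 : M * (b + 1) ≤ M * b' := Nat.mul_le_mul_left M hb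
  rw [Nat.mul_add, Nat.mul_one] at h1
  omega

theorem cost_lt_top {y y' : List Bool} (h : val (topL C m y') < val (topL C m y)) :
    (reduce m C.gates C.outs).cost y' < (reduce m C.gates C.outs).cost y := by
  rw [reduce_cost, reduce_cost]
  have := block_lt (a' := val (pathL C m y)) (val_pathL_lt C m y') h
  have := block_lt (a' := val (mainL C m y)) (val_mainL_lt C m y') this
  omega

theorem cost_lt_path {y y' : List Bool} (h0 : val (topL C m y') = val (topL C m y))
    (h : val (pathL C m y') < val (pathL C m y)) :
    (reduce m C.gates C.outs).cost y' < (reduce m C.gates C.outs).cost y := by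
  rw [reduce_cost, reduce_cost, h0]
  have := block_lt (a' := val (mainL C m y)) (val_mainL_lt C m y')
    (Nat.add_lt_add_right h (2 ^ (3 * m + 1) * val (topL C m y)))
  omega

theorem cost_lt_main {y y' : List Bool} (h0 : val (topL C m y') = val (topL C m y))
    (h1 : val (pathL C m y') = val (pathL C m y))
    (h : val (mainL C m y') < val (mainL C m y)) :
    (reduce m C.gates C.outs).cost y' < (reduce m C.gates C.outs).cost y := by
  rw [reduce_cost, reduce_cost, h0, h1]
  omega

theorem topL_getD (C : Circuit) (m : ℕ) (y : List Bool) {i : ℕ} (hi : i < 3 * m + 2) :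
    (topL C m y).getD i false = envR C m y (35, i) := by
  unfold topL
  rw [List.getD_eq_getElem _ _ (by simpa using hi), List.getElem_map, List.getElem_range]

theorem pathL_getD (hC : C.Valid) (hn : C.n = m + 1) (hm : 0 < m) {y : List Bool}
    (hy : y.length = 3 * m + 2) {j : ℕ} (hj : j < 3 * m + 1) :
    (pathL C m y).getD j false = true ↔ PBit m (fun i => envR C m y (0, i)) (3 * m - j) := by
  have hE := envR_sat hC hn hm hy
  unfold pathL
  rcases Nat.lt_or_eq_of_le (Nat.le_of_lt_succ hj) with h | h
  · rw [List.getD_append _ _ _ _ (by simpa using h),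
      List.getD_eq_getElem _ _ (by simpa using h), List.getElem_map, List.getElem_range,
      w36 hE (by omega)]
    have : 3 * m - 1 - j + 1 = 3 * m - j := by omega
    rw [this]
  · subst h
    rw [List.getD_append_right _ _ _ _ (by simp)]
    simp only [List.length_map, List.length_range, Nat.sub_self, List.getD_cons_zero]
    exact w20' hE

theorem length_topL (C : Circuit) (m : ℕ) (y : List Bool) : (topL C m y).length = 3 * m + 2 := by
  unfold topL
  simp

theorem length_pathL (C : Circuit) (m : ℕ) (y : List Bool) :
    (pathL C m y).length = 3 * m + 1 := by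
  unfold pathL
  simp

theorem top_zero (hC : C.Valid) (hn : C.n = m + 1) (hm : 0 < m) {y : List Bool}
    (hy : y.length = 3 * m + 2) (h : ¬ Ill m fun i => envR C m y (0, i)) :
    val (topL C m y) = 0 := by
  have hE := envR_sat hC hn hm hy
  refine val_eq_zero fun i hi => ?_
  rw [length_topL] at hi
  rw [topL_getD C m y hi, ← Bool.not_eq_true, w35 hE hi]
  tauto

theorem path_zero (hC : C.Valid) (hn : C.n = m + 1) (hm : 0 < m) {y : List Bool}
    (hy : y.length = 3 * m + 2) (h : ∀ v, ¬ PBit m (fun i => envR C m y (0, i)) v) :
    val (pathL C m y) = 0 := by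
  refine val_eq_zero fun i hi => ?_
  rw [length_pathL] at hi
  rw [← Bool.not_eq_true, pathL_getD hC hn hm hy hi]
  exact h _

/-- the code of an input is read off from the last coordinates -/
def decode (m : ℕ) (y : List Bool) : List Bool := y.drop (2 * m + 1)

theorem length_decode {y : List Bool} (hy : y.length = 3 * m + 2) :
    (decode m y).length = m + 1 := by
  unfold decode
  rw [List.length_drop]
  omega

theorem decode_getD {y : List Bool} (hy : y.length = 3 * m + 2) {i : ℕ} (hi : i ≤ m) :
    (decode m y).getD i false = y.getD (2 * m + 1 + i) false := by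
  unfold decode
  rw [List.getD_eq_getElem _ _ (by rw [List.length_drop]; omega), List.getElem_drop,
    List.getD_eq_getElem _ _ (by omega)]

/-- the rails of the inputs of the two copies -/
theorem rails (hC : C.Valid) (hn : C.n = m + 1) (hm : 0 < m) {y : List Bool}
    (hy : y.length = 3 * m + 2) {i : ℕ} (hi : i ≤ m) :
    envR C m y (38, 4 * i) = (y.getD (2 * m + 1 + i) false && envR C m y (37, i)) ∧
    envR C m y (38, 4 * i + 1) = y.getD (m + i) false ∧
    envR C m y (38, 4 * i + 2) = y.getD (2 * m + 1 + i) false ∧
    envR C m y (38, 4 * i + 3) = (y.getD (m + i) false && envR C m y (37, i)) := by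
  have hE := envR_sat hC hn hm hy
  have hp := envR_input hC hn hm hy (i := 2 * m + 1 + i) (by omega)
  have ht := envR_input hC hn hm hy (i := m + i) (by omega)
  have g0 := dr_gate (t := 4 * i) hE (by omega)
  have g1 := dr_gate (t := 4 * i + 1) hE (by omega)
  have g2 := dr_gate (t := 4 * i + 2) hE (by omega)
  have g3 := dr_gate (t := 4 * i + 3) hE (by omega)
  unfold drf at g0 g1 g2 g3
  rw [if_pos (by omega), if_pos (by omega), show 4 * i / 4 = i by omega] at g0
  rw [if_pos (by omega), if_neg (by omega), if_pos (by omega),
    show (4 * i + 1) / 4 = i by omega] at g1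
  rw [if_pos (by omega), if_neg (by omega), if_neg (by omega), if_pos (by omega),
    show (4 * i + 2) / 4 = i by omega] at g2
  rw [if_pos (by omega), if_neg (by omega), if_neg (by omega), if_neg (by omega),
    show (4 * i + 3) / 4 = i by omega] at g3
  have g0' := sat_and g0
  have g1' := sat_and g1
  have g2' := sat_and g2
  have g3' := sat_and g3
  rw [List.forall_mem_cons, List.forall_mem_cons, forall_nil, and_true, hp] at g0'
  rw [List.forall_mem_cons, forall_nil, and_true, ht] at g1'
  rw [List.forall_mem_cons, forall_nil, and_true, hp] at g2'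
  rw [List.forall_mem_cons, List.forall_mem_cons, forall_nil, and_true, ht] at g3'
  refine ⟨?_, ?_, ?_, ?_⟩
  · rw [Bool.eq_iff_iff, g0', Bool.and_eq_true]
  · rw [Bool.eq_iff_iff, g1']
  · rw [Bool.eq_iff_iff, g2']
  · rw [Bool.eq_iff_iff, g3', Bool.and_eq_true]

theorem main_of_isZ (hC : C.Valid) (hn : C.n = m + 1) (hm : 0 < m) {y : List Bool}
    (hy : y.length = 3 * m + 2) (h : IsZ m fun i => envR C m y (0, i)) :
    val (mainL C m y) = 2 * val (C.out (decode m y)) := by
  have hE := envR_sat hC hn hm hy
  obtain ⟨h1, h2, h3, h4, h5⟩ := isZ_facts h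
  have e37 : ∀ i ≤ m, envR C m y (37, i) = true := fun i hi => (w37 hE hi).2 (Or.inl h5)
  have e4 : envR C m y (4, 0) = false := by
    rw [← Bool.not_eq_true, w4 hE]
    exact h2
  have hz : ∀ i ≤ m, y.getD (m + i) false = !y.getD (2 * m + 1 + i) false := by
    intro i hi
    have := h.2 i hi
    dsimp only at this
    rwa [envR_input hC hn hm hy (by omega), envR_input hC hn hm hy (by omega)] at this
  have hmin := min_block hC hn hE (X0 := decode m y) (X1 := decode m y) (length_decode hy)
    (length_decode hy)
    (fun i hi => by rw [(rails hC hn hm hy hi).1, e37 i hi, decode_getD hy hi, Bool.and_true])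
    (fun i hi => by rw [(rails hC hn hm hy hi).2.1, decode_getD hy hi, hz i hi])
    (fun i hi => by rw [(rails hC hn hm hy hi).2.2.1, decode_getD hy hi])
    (fun i hi => by
      rw [(rails hC hn hm hy hi).2.2.2, e37 i hi, decode_getD hy hi, hz i hi, Bool.and_true])
  rw [if_neg (lt_irrefl _)] at hmin
  unfold mainL
  rw [val, hmin, e4]
  simp

theorem main_of_isMid (hC : C.Valid) (hn : C.n = m + 1) (hm : 0 < m) {y : List Bool}
    (hy : y.length = 3 * m + 2) {k : ℕ} (h : IsMid m (fun i => envR C m y (0, i)) k) :
    val (mainL C m y) = 1 + 2 * min (val (C.out (flip (decode m y) k)))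
      (val (C.out (decode m y))) := by
  have hE := envR_sat hC hn hm hy
  obtain ⟨h1, h2, h3, h4, h5⟩ := isMid_facts h
  obtain ⟨hk, hl, hf, hr⟩ := h
  have hpk : y.getD (2 * m + 1 + k) false = true := by
    have := hf.2
    dsimp only at this
    rwa [envR_input hC hn hm hy (by omega)] at this
  have htk : y.getD (m + k) false = true := by
    have := hf.1
    dsimp only at this
    rwa [envR_input hC hn hm hy (by omega)] at this
  have hz : ∀ i ≤ m, i ≠ k → y.getD (m + i) false = !y.getD (2 * m + 1 + i) false := by
    intro i hi hik
    have := hr i hi hik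
    dsimp only at this
    rwa [envR_input hC hn hm hy (by omega), envR_input hC hn hm hy (by omega)] at this
  have hfk : ∀ j ≤ m, Ful m (fun i => envR C m y (0, i)) j → j = k := by
    intro j hj h6
    by_contra hjk
    have h7 := hr j hj hjk
    rw [h6.1, h6.2] at h7
    exact Bool.false_ne_true h7.symm
  have e37 : ∀ i ≤ m, i ≠ k → envR C m y (37, i) = true := by
    intro i hi hik
    exact (w37 hE hi).2 (Or.inr ⟨k, hk, fun h => hik h.symm, hf⟩)
  have e37k : envR C m y (37, k) = false := by
    rw [← Bool.not_eq_true, w37 hE hk]
    rintro (h6 | ⟨j, hj, h6, h7⟩)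
    · exact h5 h6
    · exact h6 (hfk j hj h7)
  have e4 : envR C m y (4, 0) = true := (w4 hE).2 h2
  have hmin := min_block hC hn hE (X0 := flip (decode m y) k) (X1 := decode m y)
    (by rw [length_flip]; exact length_decode hy) (length_decode hy)
    (fun i hi => by
      rw [(rails hC hn hm hy hi).1, getD_flip _ _ _ (by rw [length_decode hy]; omega),
        decode_getD hy hi]
      by_cases hik : k = i
      · subst hik
        rw [if_pos rfl, e37k, hpk]
        rfl
      · rw [if_neg hik, e37 i hi (fun h => hik h.symm), Bool.and_true])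
    (fun i hi => by
      rw [(rails hC hn hm hy hi).2.1, getD_flip _ _ _ (by rw [length_decode hy]; omega),
        decode_getD hy hi]
      by_cases hik : k = i
      · subst hik
        rw [if_pos rfl, hpk, htk]
        rfl
      · rw [if_neg hik, hz i hi (fun h => hik h.symm)])
    (fun i hi => by rw [(rails hC hn hm hy hi).2.2.1, decode_getD hy hi])
    (fun i hi => by
      rw [(rails hC hn hm hy hi).2.2.2, decode_getD hy hi]
      by_cases hik : i = k
      · subst hik
        rw [e37k, hpk, Bool.and_false]
        rfl
      · rw [e37 i hi hik, hz i hi hik, Bool.and_true])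
  unfold mainL
  rw [val, hmin, e4]
  split_ifs with h6
  · rw [min_eq_left (Nat.le_of_lt h6)]
    rfl
  · rw [min_eq_right (Nat.le_of_not_lt h6)]
    rfl

/-! ### moves -/

theorem envR_flip (hC : C.Valid) (hn : C.n = m + 1) (hm : 0 < m) {y : List Bool}
    (hy : y.length = 3 * m + 2) {i j : ℕ} (hj : j < 3 * m + 2) :
    envR C m (flip y i) (0, j) = if i = j then !envR C m y (0, j) else envR C m y (0, j) := by
  rw [envR_input hC hn hm (by rw [length_flip]; exact hy) hj, envR_input hC hn hm hy hj,
    getD_flip _ _ _ (by omega)]

theorem move_ill (hC : C.Valid) (hn : C.n = m + 1) (hm : 0 < m) {y : List Bool}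
    (hy : y.length = 3 * m + 2) (h : Ill m fun i => envR C m y (0, i)) :
    ∃ i < 3 * m + 2, (reduce m C.gates C.outs).cost (flip y i) <
      (reduce m C.gates C.outs).cost y := by
  have hany : ∃ i < 3 * m + 2, envR C m y (0, i) = true := by
    by_contra hcon
    push Not at hcon
    refine legal_of_isS (u := 0) (Nat.zero_le _) (fun i hi => ?_) h
    constructor
    · intro h1
      exact absurd h1 (hcon i hi)
    · intro h1
      omega
  obtain ⟨i, hi, hY⟩ := hany
  refine ⟨i, hi, cost_lt_top ?_⟩
  have hE := envR_sat hC hn hm hy
  have hE' := envR_sat (y := flip y i) hC hn hm (by rw [length_flip]; exact hy)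
  rw [envR_input hC hn hm hy hi] at hY
  have h1 : topL C m y = y := by
    refine ext_getD (by rw [length_topL, hy]) fun j hj => ?_
    rw [length_topL] at hj
    rw [topL_getD C m y hj, Bool.eq_iff_iff, w35 hE hj, envR_input hC hn hm hy hj]
    tauto
  rw [h1]
  refine lt_of_le_of_lt (val_mono (by rw [length_topL, length_flip, hy]) fun j hj hj' => ?_)
    (val_flip_lt hY)
  rw [length_topL] at hj
  rw [topL_getD C m _ hj, w35 hE' hj, envR_input hC hn hm (by rw [length_flip]; exact hy) hj]
    at hj'
  exact hj'.2

theorem move_path (hC : C.Valid) (hn : C.n = m + 1) (hm : 0 < m) {y : List Bool}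
    (hy : y.length = 3 * m + 2) {u : ℕ} (hu : u ≤ 3 * m)
    (h : IsS m (fun i => envR C m y (0, i)) u) :
    ∃ i < 3 * m + 2, (reduce m C.gates C.outs).cost (flip y i) <
      (reduce m C.gates C.outs).cost y := by
  obtain ⟨i, hi, hnext⟩ : ∃ i < 3 * m + 2,
      IsS m (fun j => envR C m (flip y i) (0, j)) (u + 1) := by
    by_cases h3 : (u + 1) % 3 = 0
    · refine ⟨u / 3, by omega, fun j hj => ?_⟩
      dsimp only
      rw [envR_flip hC hn hm hy hj]
      have h4 := h j hj
      dsimp only at h4
      split_ifs with h5
      · subst h5
        have h6 : envR C m y (0, u / 3) = true := h4.2 (by omega)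
        rw [h6]
        simp only [Bool.not_true, Bool.false_eq_true, false_iff]
        omega
      · rw [h4]
        omega
    · refine ⟨u - u / 3, by omega, fun j hj => ?_⟩
      dsimp only
      rw [envR_flip hC hn hm hy hj]
      have h4 := h j hj
      dsimp only at h4
      split_ifs with h5
      · subst h5
        have h6 : envR C m y (0, u - u / 3) = false := by
          rw [← Bool.not_eq_true, h4]
          omega
        rw [h6]
        simp only [Bool.not_false, true_iff]
        omega
      · rw [h4]
        omega
  have hy' : (flip y i).length = 3 * m + 2 := by rw [length_flip]; exact hy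
  have hleg : ¬ Ill m (fun j => envR C m (flip y i) (0, j)) ∧
      ∀ v ≤ u, ¬ PBit m (fun j => envR C m (flip y i) (0, j)) v := by
    rcases Nat.lt_or_eq_of_le hu with hu' | rfl
    · refine ⟨legal_of_isS (by omega) hnext, fun v hv => ?_⟩
      rw [pbit_of_isS (by omega) hnext]
      omega
    · have hZ := isZ_of_isS hnext
      exact ⟨legal_of_isZ hZ, fun v _ => pbit_of_isZ hZ v⟩
  refine ⟨i, hi, cost_lt_path ?_ ?_⟩
  · rw [top_zero hC hn hm hy' hleg.1, top_zero hC hn hm hy (legal_of_isS hu h)]
  · have h1 : 2 ^ (3 * m - u) ≤ val (pathL C m y) := by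
      refine le_val_of ?_
      rw [pathL_getD hC hn hm hy (by omega), pbit_of_isS hu h]
      omega
    have h2 : val (pathL C m (flip y i)) < 2 ^ (3 * m - u) := by
      refine val_lt_of fun j hj hj' => ?_
      rw [length_pathL] at hj
      rw [← Bool.not_eq_true, pathL_getD hC hn hm hy' hj]
      exact hleg.2 _ (by omega)
    omega

theorem move_mid (hC : C.Valid) (hn : C.n = m + 1) (hm : 0 < m) {y : List Bool}
    (hy : y.length = 3 * m + 2) {k : ℕ} (h : IsMid m (fun i => envR C m y (0, i)) k) :
    ∃ i < 3 * m + 2, (reduce m C.gates C.outs).cost (flip y i) <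
      (reduce m C.gates C.outs).cost y := by
  have hk := h.1
  have hlow := h.2.1
  have hf := h.2.2.1
  have hf1 : envR C m y (0, m + k) = true := hf.1
  have hf2 : envR C m y (0, 2 * m + 1 + k) = true := hf.2
  have hr := h.2.2.2
  have hz : ∀ i, (i = m + k ∨ i = 2 * m + 1 + k) →
      IsZ m fun j => envR C m (flip y i) (0, j) := by
    intro i hi
    constructor
    · intro j hj
      dsimp only
      rw [envR_flip hC hn hm hy (by omega), if_neg (by omega)]
      exact hlow j hj
    · intro j hj
      dsimp only
      rw [envR_flip hC hn hm hy (by omega), envR_flip hC hn hm hy (by omega)]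
      by_cases hjk : j = k
      · subst hjk
        rcases hi with rfl | rfl
        · rw [if_pos rfl, if_neg (by omega), hf1, hf2]
        · rw [if_neg (by omega), if_pos rfl, hf1, hf2]
          rfl
      · rw [if_neg (by omega), if_neg (by omega)]
        exact hr j hj hjk
  have hmain := main_of_isMid hC hn hm hy h
  have hdec1 : decode m (flip y (m + k)) = decode m y := by
    refine ext_getD ?_ fun j hj => ?_
    · rw [length_decode hy, length_decode (by rw [length_flip]; exact hy)]
    · rw [length_decode (by rw [length_flip]; exact hy)] at hj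
      rw [decode_getD hy (by omega), decode_getD (by rw [length_flip]; exact hy) (by omega),
        getD_flip _ _ _ (by omega), if_neg (by omega)]
  have hdec2 : decode m (flip y (2 * m + 1 + k)) = flip (decode m y) k := by
    refine ext_getD ?_ fun j hj => ?_
    · rw [length_flip, length_decode hy, length_decode (by rw [length_flip]; exact hy)]
    · rw [length_decode (by rw [length_flip]; exact hy)] at hj
      rw [decode_getD (by rw [length_flip]; exact hy) (by omega),
        getD_flip _ _ _ (by omega), getD_flip _ _ _ (by rw [length_decode hy]; omega),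
        decode_getD hy (by omega)]
      by_cases hjk : k = j
      · rw [if_pos hjk, if_pos (by omega)]
      · rw [if_neg hjk, if_neg (by omega)]
  have hy' : ∀ i, (flip y i).length = 3 * m + 2 := fun i => by rw [length_flip]; exact hy
  have key : ∀ i, (i = m + k ∨ i = 2 * m + 1 + k) →
      val (C.out (decode m (flip y i))) ≤
        min (val (C.out (flip (decode m y) k))) (val (C.out (decode m y))) →
      (reduce m C.gates C.outs).cost (flip y i) < (reduce m C.gates C.outs).cost y := by
    intro i hi hle
    refine cost_lt_main ?_ ?_ ?_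
    · rw [top_zero hC hn hm (hy' i) (legal_of_isZ (hz i hi)),
        top_zero hC hn hm hy (legal_of_isMid h)]
    · rw [path_zero hC hn hm (hy' i) (pbit_of_isZ (hz i hi)),
        path_zero hC hn hm hy (pbit_of_isMid h)]
    · rw [main_of_isZ hC hn hm (hy' i) (hz i hi), hmain]
      omega
  rcases le_total (val (C.out (flip (decode m y) k))) (val (C.out (decode m y))) with h1 | h1
  · refine ⟨2 * m + 1 + k, by omega, key _ (Or.inr rfl) ?_⟩
    rw [hdec2, min_eq_left h1]
  · refine ⟨m + k, by omega, key _ (Or.inl rfl) ?_⟩
    rw [hdec1, min_eq_right h1]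

theorem move_code (hC : C.Valid) (hn : C.n = m + 1) (hm : 0 < m) {y : List Bool}
    (hy : y.length = 3 * m + 2) (h : IsZ m fun i => envR C m y (0, i)) {k : ℕ} (hk : k ≤ m)
    (hlt : C.cost (flip (decode m y) k) < C.cost (decode m y)) :
    ∃ i < 3 * m + 2, (reduce m C.gates C.outs).cost (flip y i) <
      (reduce m C.gates C.outs).cost y := by
  rw [Circuit.cost_eq, Circuit.cost_eq] at hlt
  have hy' : ∀ i, (flip y i).length = 3 * m + 2 := fun i => by rw [length_flip]; exact hy
  -- the coordinate to be added
  obtain ⟨i, hi, hmid, hdec⟩ : ∃ i < 3 * m + 2,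
      IsMid m (fun j => envR C m (flip y i) (0, j)) k ∧
      (decode m (flip y i) = decode m y ∨ decode m (flip y i) = flip (decode m y) k) := by
    have hzk := h.2 k hk
    dsimp only at hzk
    have hmid : ∀ i, (i = m + k ∨ i = 2 * m + 1 + k) → envR C m y (0, i) = false →
        IsMid m (fun j => envR C m (flip y i) (0, j)) k := by
      intro i hi hYi
      refine ⟨hk, ?_, ?_, ?_⟩
      · intro j hj
        dsimp only
        rw [envR_flip hC hn hm hy (by omega), if_neg (by omega)]
        exact h.1 j hj
      · constructor
        · dsimp only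
          rw [envR_flip hC hn hm hy (by omega)]
          rcases hi with rfl | rfl
          · rw [if_pos rfl, hYi]
            rfl
          · rw [if_neg (by omega), hzk, hYi]
            rfl
        · dsimp only
          rw [envR_flip hC hn hm hy (by omega)]
          rcases hi with rfl | rfl
          · rw [hYi] at hzk
            rw [if_neg (by omega)]
            revert hzk
            cases envR C m y (0, 2 * m + 1 + k) <;> simp
          · rw [if_pos rfl, hYi]
            rfl
      · intro j hj hjk
        dsimp only
        rw [envR_flip hC hn hm hy (by omega), envR_flip hC hn hm hy (by omega),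
          if_neg (by omega), if_neg (by omega)]
        exact h.2 j hj
    cases hb : envR C m y (0, 2 * m + 1 + k) with
    | false =>
      refine ⟨2 * m + 1 + k, by omega, hmid _ (Or.inr rfl) hb, Or.inr ?_⟩
      refine ext_getD ?_ fun j hj => ?_
      · rw [length_flip, length_decode hy, length_decode (hy' _)]
      · rw [length_decode (hy' _)] at hj
        rw [decode_getD (hy' _) (by omega),
          getD_flip _ _ _ (by omega), getD_flip _ _ _ (by rw [length_decode hy]; omega),
          decode_getD hy (by omega)]
        by_cases hjk : k = j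
        · rw [if_pos hjk, if_pos (by omega)]
        · rw [if_neg hjk, if_neg (by omega)]
    | true =>
      refine ⟨m + k, by omega, hmid _ (Or.inl rfl) (by rw [hzk, hb]; rfl), Or.inl ?_⟩
      refine ext_getD ?_ fun j hj => ?_
      · rw [length_decode hy, length_decode (hy' _)]
      · rw [length_decode (hy' _)] at hj
        rw [decode_getD hy (by omega), decode_getD (hy' _) (by omega),
          getD_flip _ _ _ (by omega), if_neg (by omega)]
  refine ⟨i, hi, cost_lt_main ?_ ?_ ?_⟩
  · rw [top_zero hC hn hm (hy' i) (legal_of_isMid hmid),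
      top_zero hC hn hm hy (legal_of_isZ h)]
  · rw [path_zero hC hn hm (hy' i) (pbit_of_isMid hmid),
      path_zero hC hn hm hy (pbit_of_isZ h)]
  · rw [main_of_isMid hC hn hm (hy' i) hmid, main_of_isZ hC hn hm hy h]
    have hff : flip (flip (decode m y) k) k = decode m y := by
      refine ext_getD (by rw [length_flip, length_flip]) fun j hj => ?_
      rw [length_flip, length_flip] at hj
      rw [getD_flip _ _ _ (by rw [length_flip]; exact hj), getD_flip _ _ _ hj]
      split_ifs
      · rw [Bool.not_not]
      · rfl
    rcases hdec with hd | hd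
    · rw [hd]
      have := min_le_left (val (C.out (flip (decode m y) k))) (val (C.out (decode m y)))
      omega
    · rw [hd, hff]
      have := min_le_right (val (C.out (decode m y))) (val (C.out (flip (decode m y) k)))
      omega

/-- local minima of the new circuit decode to local minima of the given one -/
theorem reduce_correct (hC : C.Valid) (hn : C.n = m + 1) (hm : 0 < m) {y : List Bool}
    (h : (reduce m C.gates C.outs).IsLocalMin y) : C.IsLocalMin (decode m y) := by
  obtain ⟨hy, hmin⟩ := h
  rw [reduce_n] at hy hmin
  have hno : ¬ ∃ i < 3 * m + 2, (reduce m C.gates C.outs).cost (flip y i) <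
      (reduce m C.gates C.outs).cost y := by
    rintro ⟨i, hi, h1⟩
    have := hmin i hi
    omega
  refine ⟨by rw [length_decode hy, hn], fun k hk => ?_⟩
  rw [hn] at hk
  by_contra hcon
  have hlt := Nat.lt_of_not_le hcon
  by_cases hill : Ill m fun i => envR C m y (0, i)
  · exact hno (move_ill hC hn hm hy hill)
  · rcases cases_legal hill with ⟨u, hu, h1⟩ | h1 | ⟨k', h1⟩
    · exact hno (move_path hC hn hm hy hu h1)
    · exact hno (move_code hC hn hm hy h1 (by omega) hlt)
    · exact hno (move_mid hC hn hm hy h1)

end

end Pool.Agent.MPa0a715
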