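import Pool.Agent.Lib.MP_a0a715_lc.PTBlocks
import Pool.Agent.Lib.MP_a0a715_lc.Correct

/-!
# At most one NOT gate
-/

namespace Pool.Agent.MPa0a715

open Pool.Agent.PolyTime

/-! ### the solver -/

/-- the zero vector -/
def zeros (n : ℕ) : List Bool := List.replicate n false

/-- a neighbour of the zero vector of smaller cost, if there is one, otherwise the zero vector -/
def easy (C : Circuit) : List Bool :=
  match (List.range C.n).find? (fun i =>
    decide (val (C.out (flip (zeros C.n) i)) < val (C.out (zeros C.n)))) with
  | none => zeros C.n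
  | some i => flip (zeros C.n) i

theorem length_zeros (n : ℕ) : (zeros n).length = n := List.length_replicate

theorem zeros_getD (n i : ℕ) : (zeros n).getD i false = false := by
  unfold zeros
  by_cases h : i < n
  · rw [List.getD_eq_getElem _ _ (by simpa using h), List.getElem_replicate]
  · rw [List.getD_eq_default _ _ (by simpa using Nat.le_of_not_lt h)]

theorem flip_flip (x : List Bool) (i : ℕ) : flip (flip x i) i = x := by
  refine ext_getD (by rw [length_flip, length_flip]) fun j hj => ?_
  rw [length_flip, length_flip] at hj
  rw [getD_flip _ _ _ (by rw [length_flip]; exact hj), getD_flip _ _ _ hj]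
  split_ifs
  · rw [Bool.not_not]
  · rfl

theorem easy_cases (C : Circuit) :
    (easy C = zeros C.n ∧ ∀ i < C.n, C.cost (zeros C.n) ≤ C.cost (flip (zeros C.n) i)) ∨
    ∃ i < C.n, easy C = flip (zeros C.n) i ∧
      C.cost (flip (zeros C.n) i) < C.cost (zeros C.n) := by
  unfold easy
  cases h : (List.range C.n).find? (fun i =>
    decide (val (C.out (flip (zeros C.n) i)) < val (C.out (zeros C.n)))) with
  | none =>
    left
    refine ⟨rfl, fun i hi => ?_⟩
    rw [List.find?_eq_none] at h
    have := h i (List.mem_range.2 hi)
    rw [decide_eq_true_eq] at this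
    rw [Circuit.cost_eq, Circuit.cost_eq]
    omega
  | some i =>
    right
    have h1 := List.find?_some h
    have h2 := List.mem_of_find?_eq_some h
    rw [decide_eq_true_eq] at h1
    refine ⟨i, List.mem_range.1 h2, rfl, ?_⟩
    rw [Circuit.cost_eq, Circuit.cost_eq]
    omega

/-- with at most one input the solver is correct -/
theorem easy_small {C : Circuit} (hn : C.n ≤ 1) : C.IsLocalMin (easy C) := by
  rcases easy_cases C with ⟨h1, h2⟩ | ⟨i, hi, h1, h2⟩
  · rw [h1]
    exact ⟨length_zeros _, h2⟩
  · rw [h1]
    refine ⟨by rw [length_flip, length_zeros], fun j hj => ?_⟩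
    have : j = i := by omega
    rw [this, flip_flip]
    exact Nat.le_of_lt h2

/-! ### monotonicity -/

/-- pointwise order on lists of bits -/
def LE' (x y : List Bool) : Prop :=
  x.length = y.length ∧ ∀ i, x.getD i false = true → y.getD i false = true

theorem LE'.append {x y : List Bool} {b c : Bool} (h : LE' x y) (hbc : b = true → c = true) :
    LE' (x ++ [b]) (y ++ [c]) := by
  refine ⟨by rw [List.length_append, List.length_append, h.1]; rfl, fun i hi => ?_⟩
  by_cases h1 : i < x.length
  · rw [List.getD_append _ _ _ _ h1] at hi
    rw [List.getD_append _ _ _ _ (by rw [← h.1]; exact h1)]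
    exact h.2 i hi
  · rw [List.getD_append_right _ _ _ _ (by omega)] at hi
    rw [List.getD_append_right _ _ _ _ (by rw [← h.1]; omega), ← h.1]
    cases h2 : i - x.length with
    | zero =>
      rw [h2] at hi
      exact hbc hi
    | succ k =>
      rw [h2] at hi
      simp at hi

/-- is it a NOT gate? -/
def isNot (g : Gate) : Bool := match g with
  | .not _ => true
  | _ => false

theorem eval_mono {g : Gate} (hg : isNot g = false) {x y : List Bool} (h : LE' x y) :
    g.eval x = true → g.eval y = true := by
  cases g with
  | and i j =>
    simp only [Gate.eval, Bool.and_eq_true]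
    rintro ⟨h1, h2⟩
    exact ⟨h.2 i h1, h.2 j h2⟩
  | or i j =>
    simp only [Gate.eval, Bool.or_eq_true]
    rintro (h1 | h1)
    · exact Or.inl (h.2 i h1)
    · exact Or.inr (h.2 j h1)
  | not i => exact absurd hg (by simp [isNot])

theorem run_mono {gs : List Gate} (hg : ∀ g ∈ gs, isNot g = false) {x y : List Bool}
    (h : LE' x y) : LE' (run gs x) (run gs y) := by
  induction gs generalizing x y with
  | nil => exact h
  | cons g gs ih =>
    rw [run_cons, run_cons]
    exact ih (fun g' hg' => hg g' (List.mem_cons_of_mem _ hg'))
      (h.append (eval_mono (hg g List.mem_cons_self) h))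

/-- the effect of a single NOT gate -/
theorem one_not {gs : List Gate} (hg : gs.countP isNot ≤ 1) :
    ∃ g : List Bool → Bool, ∀ x y : List Bool, LE' x y →
      (g x = true → g y = true) ∧ (g x = g y → LE' (run gs x) (run gs y)) := by
  by_cases h : ∀ g ∈ gs, isNot g = false
  · exact ⟨fun _ => true, fun x y hxy => ⟨fun _ => rfl, fun _ => run_mono h hxy⟩⟩
  · push Not at h
    obtain ⟨g, hg1, hg2⟩ := h
    obtain ⟨l1, l2, rfl⟩ := List.append_of_mem hg1
    have hgt : isNot g = true := by
      cases h3 : isNot g with
      | false => exact absurd h3 hg2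
      | true => rfl
    rw [List.countP_append, List.countP_cons, if_pos hgt] at hg
    have h1 : ∀ g' ∈ l1, isNot g' = false := by
      have : l1.countP isNot = 0 := by omega
      rw [List.countP_eq_zero] at this
      intro g' hg'
      simpa using this g' hg'
    have h2 : ∀ g' ∈ l2, isNot g' = false := by
      have : l2.countP isNot = 0 := by omega
      rw [List.countP_eq_zero] at this
      intro g' hg'
      simpa using this g' hg'
    cases g with
    | and i j => exact absurd hgt (by simp [isNot])
    | or i j => exact absurd hgt (by simp [isNot])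
    | not i =>
      refine ⟨fun x => (run l1 x).getD i false, fun x y hxy => ?_⟩
      have h3 := run_mono h1 hxy
      refine ⟨h3.2 i, fun h4 => ?_⟩
      rw [run_append, run_append, run_cons, run_cons]
      refine run_mono h2 (h3.append ?_)
      simp only [Gate.eval]
      dsimp only at h4
      rw [h4]
      exact fun h => h

theorem cost_mono {C : Circuit} {x y : List Bool} (h : LE' (run C.gates x) (run C.gates y)) :
    C.cost x ≤ C.cost y := by
  rw [Circuit.cost_eq, Circuit.cost_eq]
  refine Nat.mul_le_mul_left 2 (val_mono ?_ fun i hi h1 => ?_)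
  · unfold Circuit.out
    rw [List.length_map, List.length_map]
  · have hi' : i < C.outs.length := by
      unfold Circuit.out at hi
      rwa [List.length_map] at hi
    rw [out_getD _ hi'] at h1 ⊢
    exact h.2 _ h1

theorem numNot_eq (C : Circuit) : C.numNot = C.gates.countP isNot := rfl

theorem easy_correct {C : Circuit} (h : C.numNot ≤ 1) : C.IsLocalMin (easy C) := by
  rw [numNot_eq] at h
  obtain ⟨g, hg⟩ := one_not h
  rcases easy_cases C with ⟨h1, h2⟩ | ⟨i, hi, h1, h2⟩
  · rw [h1]
    exact ⟨length_zeros _, h2⟩
  · rw [h1]
    refine ⟨by rw [length_flip, length_zeros], fun j hj => ?_⟩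
    by_cases hij : j = i
    · rw [hij, flip_flip]
      exact Nat.le_of_lt h2
    · have hle0 : LE' (zeros C.n) (flip (zeros C.n) i) := by
        refine ⟨by rw [length_flip], fun k hk => ?_⟩
        rw [zeros_getD] at hk
        exact absurd hk Bool.false_ne_true
      have hle : LE' (flip (zeros C.n) i) (flip (flip (zeros C.n) i) j) := by
        refine ⟨by rw [length_flip, length_flip, length_flip], fun k hk => ?_⟩
        have hk' : k < C.n := by
          by_contra hcon
          rw [List.getD_eq_default _ _ (by rw [length_flip, length_zeros]; omega)] at hk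
          exact Bool.false_ne_true hk
        rw [getD_flip _ _ _ (by rw [length_flip, length_zeros]; exact hk')]
        split_ifs with h3
        · rw [getD_flip _ _ _ (by rw [length_zeros]; exact hk'), if_neg (by omega),
            zeros_getD]
          rfl
        · exact hk
      obtain ⟨a1, a2⟩ := hg _ _ hle0
      obtain ⟨b1, b2⟩ := hg _ _ hle
      have hgi : g (flip (zeros C.n) i) = true := by
        cases h4 : g (flip (zeros C.n) i) with
        | true => rfl
        | false =>
          have h5 : g (zeros C.n) = false := by
            cases h6 : g (zeros C.n) with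
            | false => rfl
            | true => rw [a1 h6] at h4; exact h4
          have h7 := cost_mono (a2 (by rw [h4, h5]))
          omega
      exact cost_mono (b2 (by rw [hgi, b1 hgi]))

/-! ### polynomial time -/

section
variable {α β γ : Type} [Enc α] [Enc β] [Enc γ]

theorem size_bool (b : Bool) : size (enc b) ≤ 3 := by
  cases b
  · rw [enc_false, size_nil]; omega
  · rw [enc_true, size_cons, size_nil]

theorem ptime_eval {g : α → Gate} {v : α → List Bool} (hg : PTime g) (hv : PTime v) :
    PTime (fun a => (g a).eval (v a)) := by
  have hc := ptime_code hg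
  have hi : PTime (fun a => (v a).getD (g a).code.2.1 false) :=
    PTime.listGetD hv hc.snd'.fst' (PTime.const false)
  have hj : PTime (fun a => (v a).getD (g a).code.2.2 false) :=
    PTime.listGetD hv hc.snd'.snd' (PTime.const false)
  refine (ptime_ite_eq hc.fst' (b := some true) (hi.and hj) (ptime_ite_eq hc.fst'
    (b := some false) (hi.or hj) hi.not)).of_eq fun a => ?_
  cases g a <;> simp [Gate.code, Gate.eval]

theorem ptime_run {g : α → List Gate} {x : α → List Bool} (hg : PTime g) (hx : PTime x) :
    PTime (fun a => run (g a) (x a)) := by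
  obtain ⟨F, hF, hFm, hFs⟩ := hg.size_le
  obtain ⟨F', hF', hFm', hFs'⟩ := hx.size_le
  have hstep : PTime (fun p : α × (List Bool × Gate) => p.2.1 ++ [p.2.2.eval p.2.1]) := by
    have e1 : PTime (fun p : α × (List Bool × Gate) => p.2.1) := PTime.fst' PTime.snd
    have e2 : PTime (fun p : α × (List Bool × Gate) => p.2.2) := PTime.snd' PTime.snd
    exact e1.append ((ptime_eval e2 e1).cons (PTime.const []))
  refine PTime.foldl (h := fun _ v g => v ++ [g.eval v]) hg hx hstep
    (B := fun n => (F' n + F n) * 4 + 1) ?_ ?_
  · exact ((hF'.add hF).mul (PBd.const 4)).add (PBd.const 1)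
  · intro a l₁ l₂ hl
    change size (enc (run l₁ (x a))) ≤ _
    refine (size_list_le _ 3 fun b _ => size_bool b).trans ?_
    rw [length_run]
    have h1 : l₁.length ≤ (g a).length := by rw [hl]; simp
    have h2 := length_le_size (g a)
    have h3 := length_le_size (x a)
    have h4 := hFs a
    have h5 := hFs' a
    have h6 : (x a).length + l₁.length ≤ F' (size (enc a)) + F (size (enc a)) := by omega
    have := Nat.mul_le_mul_right 4 h6
    omega

theorem ptime_out {C : α → Circuit} {x : α → List Bool} (hC : PTime C) (hx : PTime x) :
    PTime (fun a => (C a).out (x a)) := by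
  have hr := ptime_run (ptime_gates hC) hx
  refine PTime.map (g := fun (a : α) (o : ℕ) => (run (C a).gates (x a)).getD o false)
    (ptime_outs hC) ?_
  exact PTime.listGetD (hr.comp PTime.fst) PTime.snd (PTime.const false)

theorem val_eq_ofBits (l : List Bool) : val l = ofBits l := by
  induction l with
  | nil => rfl
  | cons b l ih => rw [val, ofBits_cons, ih]

theorem ptime_flip {x : α → List Bool} {i : α → ℕ} (hx : PTime x) (hi : PTime i) :
    PTime (fun a => flip (x a) (i a)) := by
  have h : PTime₂ (fun (a : α) (p : Bool × ℕ) => if p.2 = i a then !p.1 else p.1) := by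
    have e1 : PTime (fun q : α × (Bool × ℕ) => q.2.1) := PTime.fst' PTime.snd
    have e2 : PTime (fun q : α × (Bool × ℕ) => q.2.2) := PTime.snd' PTime.snd
    exact PTime.iteP (PTime.eq e2 (hi.comp PTime.fst)) e1.not e1
  refine (PTime.map (PTime.zipIdx hx) h).of_eq fun a => ?_
  refine List.ext_getElem (by simp [flip]) fun j h1 h2 => ?_
  unfold flip
  rw [List.getElem_modify]
  simp only [List.getElem_map, List.getElem_zip, List.getElem_range]
  by_cases h3 : i a = j
  · rw [if_pos h3.symm, if_pos h3]
  · rw [if_neg (fun h => h3 h.symm), if_neg h3]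

theorem ptime_zeros {n : α → ℕ} (hn : PU n) : PTime (fun a => zeros (n a)) := by
  refine (PTime.map (g := fun (_ : α) (_ : Unit) => false) hn (PTime.const false)).of_eq
    fun a => ?_
  unfold zeros
  simp

theorem ptime_easy : PTime easy := by
  have hz : PTime (fun C : Circuit => zeros C.n) := ptime_zeros (pu_n PTime.id)
  have hf : PTime (fun p : Circuit × ℕ => flip (zeros p.1.n) p.2) :=
    ptime_flip (hz.comp PTime.fst) PTime.snd
  have hlt : PTime₂ (fun (C : Circuit) (i : ℕ) =>
      decide (val (C.out (flip (zeros C.n) i)) < val (C.out (zeros C.n)))) := by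
    have e1 : PTime (fun p : Circuit × ℕ => val (p.1.out (flip (zeros p.1.n) p.2))) :=
      (PTime.natOfBits (ptime_out PTime.fst hf)).of_eq fun p => (val_eq_ofBits _).symm
    have e2 : PTime (fun p : Circuit × ℕ => val (p.1.out (zeros p.1.n))) :=
      (PTime.natOfBits (ptime_out PTime.fst (hz.comp PTime.fst))).of_eq fun p =>
        (val_eq_ofBits _).symm
    exact PTime.lt e1 e2
  refine (PTime.option_cases (PTime.find? (pu_n PTime.id).range hlt) hz hf).of_eq fun C => ?_
  unfold easy
  cases (List.range C.n).find? (fun i =>
    decide (val (C.out (flip (zeros C.n) i)) < val (C.out (zeros C.n)))) <;> rfl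

end

end Pool.Agent.MPa0a715
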