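import Pool.Agent.Lib.PolyTime.Defs

/-!
# Circuit-FLIP

Boolean circuits given as lists of gates, their costs, local minima under single bit flips, and
polynomial-time solvers.
-/

namespace Pool.Agent.MPa0a715

open Pool.Agent.PolyTime

/-- Gates.  The wires of a circuit with `n` inputs are numbered: wires `0, ..., n - 1` are the
inputs and wire `n + k` is the gate in position `k` of the list of gates. -/
inductive Gate
  | and (i j : ℕ)
  | or (i j : ℕ)
  | not (i : ℕ)
  deriving DecidableEq

/-- The wires read by a gate. -/
def Gate.refs : Gate → List ℕ
  | .and i j => [i, j]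
  | .or i j => [i, j]
  | .not i => [i]

/-- The value of a gate when the wires have the values `v`. -/
def Gate.eval (v : List Bool) : Gate → Bool
  | .and i j => v.getD i false && v.getD j false
  | .or i j => v.getD i false || v.getD j false
  | .not i => !v.getD i false

/-- Circuits: number of inputs, list of gates, list of output wires. -/
structure Circuit where
  n : ℕ
  gates : List Gate
  outs : List ℕ

/-- Well-formed circuits: every gate reads inputs or earlier gates, the outputs are gates. -/
def Circuit.Valid (C : Circuit) : Prop :=
  (∀ (k : ℕ) (h : k < C.gates.length), ∀ r ∈ C.gates[k].refs, r < C.n + k) ∧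
  ∀ o ∈ C.outs, C.n ≤ o ∧ o < C.n + C.gates.length

/-- The values of all wires on the input `x`. -/
def Circuit.wires (C : Circuit) (x : List Bool) : List Bool :=
  C.gates.foldl (fun v g => v ++ [g.eval v]) x

/-- The cost `∑ y_j 2 ^ j` of the input `x`, where `(y_1, ..., y_m)` is the output on `x`. -/
def Circuit.cost (C : Circuit) (x : List Bool) : ℕ :=
  ∑ j ∈ Finset.range C.outs.length,
    if (C.wires x).getD (C.outs.getD j 0) false then 2 ^ (j + 1) else 0

/-- Flip the bit in position `i`. -/
def flip (x : List Bool) (i : ℕ) : List Bool := x.modify i (fun b => !b)

/-- `x` is an input of the circuit and no single bit flip gives a smaller cost. -/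
def Circuit.IsLocalMin (C : Circuit) (x : List Bool) : Prop :=
  x.length = C.n ∧ ∀ i < C.n, C.cost x ≤ C.cost (flip x i)

/-- The number of NOT gates. -/
def Circuit.numNot (C : Circuit) : ℕ :=
  C.gates.countP fun g => match g with
    | .not _ => true
    | _ => false

/-- Encoding of gates: the kind of the gate and the wires read, in binary. -/
instance : Enc Gate := ⟨fun g => match g with
  | .and i j => enc (some true, i, j)
  | .or i j => enc (some false, i, j)
  | .not i => enc ((none : Option Bool), i, 0)⟩

/-- Encoding of circuits: the number of inputs in unary, the gates and the outputs. -/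
instance : Enc Circuit := ⟨fun C => enc (List.replicate C.n (), C.gates, C.outs)⟩

/-- Circuit-FLIP restricted to the circuits satisfying `K` has a polynomial-time solver. -/
def HasSolver (K : Circuit → Prop) : Prop :=
  ∃ f : Circuit → List Bool, IsPolyTime enc enc f ∧
    ∀ C : Circuit, C.Valid → K C → C.IsLocalMin (f C)

/-- Circuit-FLIP restricted to `K` reduces to Circuit-FLIP restricted to `L` by a reduction in
the sense of the class PLS: a circuit `C` is mapped to a circuit `g C`, and `h` maps every local
minimum of `g C` to a local minimum of `C`, both in polynomial time. -/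
def PLSReduces (K L : Circuit → Prop) : Prop :=
  ∃ (g : Circuit → Circuit) (h : Circuit × List Bool → List Bool),
    IsPolyTime enc enc g ∧ IsPolyTime enc enc h ∧
    ∀ C : Circuit, C.Valid → K C → (g C).Valid ∧ L (g C) ∧
      ∀ y, (g C).IsLocalMin y → C.IsLocalMin (h (C, y))

end Pool.Agent.MPa0a715
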