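import Mathlib
import Pool.Agent.Lib.MP_a0a715_lc.Defs

/-!
# Semantics of circuits by environments
-/

namespace Pool.Agent.MPa0a715

open Pool.Agent.PolyTime

/-- value of a gate in an environment -/
def Gate.evalW (W : ℕ → Bool) : Gate → Bool
  | .and i j => W i && W j
  | .or i j => W i || W j
  | .not i => !W i

theorem Gate.eval_congr {v : List Bool} {W : ℕ → Bool} {g : Gate}
    (h : ∀ r ∈ g.refs, v.getD r false = W r) : g.eval v = g.evalW W := by
  cases g with
  | and i j =>
    simp only [Gate.refs, List.mem_cons, List.not_mem_nil, or_false, forall_eq_or_imp,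
      forall_eq] at h
    simp only [Gate.eval, Gate.evalW, h.1, h.2]
  | or i j =>
    simp only [Gate.refs, List.mem_cons, List.not_mem_nil, or_false, forall_eq_or_imp,
      forall_eq] at h
    simp only [Gate.eval, Gate.evalW, h.1, h.2]
  | not i =>
    simp only [Gate.refs, List.mem_cons, List.not_mem_nil, or_false, forall_eq] at h
    simp only [Gate.eval, Gate.evalW, h]

/-- run a list of gates -/
def run (gs : List Gate) (x : List Bool) : List Bool := gs.foldl (fun v g => v ++ [g.eval v]) x

theorem Circuit.wires_eq (C : Circuit) (x : List Bool) : C.wires x = run C.gates x := rfl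

theorem run_cons (g : Gate) (gs : List Gate) (x : List Bool) :
    run (g :: gs) x = run gs (x ++ [g.eval x]) := rfl

theorem run_append (gs gs' : List Gate) (x : List Bool) :
    run (gs ++ gs') x = run gs' (run gs x) := by
  unfold run
  rw [List.foldl_append]

theorem length_run (gs : List Gate) (x : List Bool) :
    (run gs x).length = x.length + gs.length := by
  induction gs generalizing x with
  | nil => rfl
  | cons g gs ih =>
    rw [run_cons, ih, List.length_append, List.length_singleton, List.length_cons]
    omega

theorem run_prefix (gs : List Gate) (x : List Bool) : ∃ l, run gs x = x ++ l := by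
  induction gs generalizing x with
  | nil => exact ⟨[], (List.append_nil x).symm⟩
  | cons g gs ih =>
    obtain ⟨l, hl⟩ := ih (x ++ [g.eval x])
    refine ⟨g.eval x :: l, ?_⟩
    rw [run_cons, hl, List.append_assoc, List.singleton_append]

theorem run_getD_lt (gs : List Gate) (x : List Bool) {w : ℕ} (hw : w < x.length) :
    (run gs x).getD w false = x.getD w false := by
  obtain ⟨l, hl⟩ := run_prefix gs x
  rw [hl, List.getD_append _ _ _ _ hw]

theorem run_gate {gs : List Gate} {x : List Bool} {n : ℕ} (hx : x.length = n)
    (hv : ∀ (k : ℕ) (h : k < gs.length), ∀ r ∈ gs[k].refs, r < n + k) (k : ℕ)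
    (hk : k < gs.length) :
    (run gs x).getD (n + k) false = gs[k].evalW fun w => (run gs x).getD w false := by
  have hsplit : gs = gs.take k ++ gs[k] :: gs.drop (k + 1) := by
    rw [← List.drop_eq_getElem_cons hk, List.take_append_drop]
  have hlen : (run (gs.take k) x).length = n + k := by
    rw [length_run, hx, List.length_take]
    omega
  have h1 : run gs x = run (gs.drop (k + 1))
      (run (gs.take k) x ++ [gs[k].eval (run (gs.take k) x)]) := by
    conv_lhs => rw [hsplit]
    rw [run_append, run_cons]
  have h2 : (run gs x).getD (n + k) false = gs[k].eval (run (gs.take k) x) := by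
    rw [h1, run_getD_lt _ _ (by rw [List.length_append, hlen]; simp)]
    rw [List.getD_append_right _ _ _ _ (by rw [hlen]), hlen]
    simp
  rw [h2]
  refine Gate.eval_congr fun r hr => ?_
  have h3 := hv k hk r hr
  have h4 : (run gs x).getD r false = (run (gs.take k) x).getD r false := by
    rw [h1, run_getD_lt _ _ (by rw [List.length_append, hlen]; omega),
      List.getD_append _ _ _ _ (by rw [hlen]; exact h3)]
  exact h4.symm

/-- all the values on the wires, as a function -/
def Circuit.env (C : Circuit) (x : List Bool) (w : ℕ) : Bool := (C.wires x).getD w false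

theorem Circuit.env_input (C : Circuit) {x : List Bool} {i : ℕ} (hi : i < x.length) :
    C.env x i = x.getD i false := run_getD_lt _ _ hi

theorem Circuit.env_gate {C : Circuit} (hC : C.Valid) {x : List Bool} (hx : x.length = C.n)
    {k : ℕ} (hk : k < C.gates.length) :
    C.env x (C.n + k) = (C.gates[k]).evalW (C.env x) :=
  run_gate hx hC.1 k hk

/-- little-endian value of a list of bits -/
def val : List Bool → ℕ
  | [] => 0
  | b :: l => b.toNat + 2 * val l

theorem val_append (l l' : List Bool) : val (l ++ l') = val l + 2 ^ l.length * val l' := by
  induction l with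
  | nil => simp [val]
  | cons b l ih =>
    rw [List.cons_append, val, val, ih, List.length_cons]
    ring

theorem val_lt (l : List Bool) : val l < 2 ^ l.length := by
  induction l with
  | nil => simp [val]
  | cons b l ih =>
    rw [val, List.length_cons, pow_succ]
    have : b.toNat ≤ 1 := Bool.toNat_le b
    omega

theorem val_sum (l : List Bool) :
    val l = ∑ j ∈ Finset.range l.length, if l.getD j false then 2 ^ j else 0 := by
  induction l with
  | nil => rfl
  | cons b l ih =>
    rw [List.length_cons, Finset.sum_range_succ']
    simp only [List.getD_cons_succ, List.getD_cons_zero, pow_zero]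
    rw [val, ih, Finset.mul_sum, add_comm]
    congr 1
    · refine Finset.sum_congr rfl fun j _ => ?_
      split_ifs
      · rw [pow_succ]; ring
      · rfl
    · cases b <;> rfl

/-- the list of output bits -/
def Circuit.out (C : Circuit) (x : List Bool) : List Bool := C.outs.map (C.env x)

theorem Circuit.cost_eq (C : Circuit) (x : List Bool) : C.cost x = 2 * val (C.out x) := by
  rw [val_sum, Finset.mul_sum]
  unfold Circuit.cost Circuit.out
  rw [List.length_map]
  refine Finset.sum_congr rfl fun j hj => ?_
  rw [Finset.mem_range] at hj
  have h1 : (C.outs.map (C.env x)).getD j false = C.env x (C.outs.getD j 0) := by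
    rw [List.getD_eq_getElem _ _ (by rw [List.length_map]; exact hj), List.getElem_map,
      List.getD_eq_getElem _ _ hj]
  rw [h1]
  unfold Circuit.env
  split_ifs
  · rw [pow_succ]; ring
  · rfl

theorem length_flip (x : List Bool) (i : ℕ) : (flip x i).length = x.length := by
  unfold flip
  simp

theorem getD_flip (x : List Bool) (i j : ℕ) (hj : j < x.length) :
    (flip x i).getD j false = if i = j then !x.getD j false else x.getD j false := by
  unfold flip
  rw [List.getD_eq_getElem _ _ (by simpa using hj), List.getElem_modify,
    List.getD_eq_getElem _ _ hj]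

theorem ext_getD {x y : List Bool} (hl : x.length = y.length)
    (h : ∀ i < x.length, x.getD i false = y.getD i false) : x = y := by
  refine List.ext_getElem hl fun i h1 h2 => ?_
  have := h i h1
  rwa [List.getD_eq_getElem _ _ h1, List.getD_eq_getElem _ _ h2] at this

end Pool.Agent.MPa0a715
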