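import Pool.Agent.Lib.MP_a0a715_lc.Compile

/-!
# Lists of named gates arranged in blocks
-/

namespace Pool.Agent.MPa0a715

open Pool.Agent.PolyTime

/-- a block: its number of gates and the gates -/
abbrev Blk := ℕ × (ℕ → Option Bool × List Name)

/-- the gates of a list of blocks, the first block having number `b` -/
def toG : ℕ → List Blk → List NG
  | _, [] => []
  | b, l :: bs => (List.range l.1).map (fun i => ((b, i), l.2 i)) ++ toG (b + 1) bs

/-- strict lexicographic order on names -/
def nlt (a b : Name) : Prop := a.1 < b.1 ∨ (a.1 = b.1 ∧ a.2 < b.2)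

theorem nlt_irrefl (a : Name) : ¬ nlt a a := by
  unfold nlt
  omega

theorem nlt_asymm {a b : Name} (h : nlt a b) : ¬ nlt b a := by
  unfold nlt at *
  omega

theorem mem_toG {b : ℕ} {bs : List Blk} {g : NG} :
    g ∈ toG b bs ↔ ∃ i l j, bs[i]? = some l ∧ j < l.1 ∧ g = ((b + i, j), l.2 j) := by
  induction bs generalizing b with
  | nil => simp [toG]
  | cons a bs ih =>
    rw [toG, List.mem_append, ih, List.mem_map]
    constructor
    · rintro (⟨j, hj, rfl⟩ | ⟨i, l, j, h1, h2, h3⟩)
      · rw [List.mem_range] at hj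
        exact ⟨0, a, j, rfl, hj, rfl⟩
      · refine ⟨i + 1, l, j, by rw [List.getElem?_cons_succ]; exact h1, h2, ?_⟩
        rw [h3, Nat.add_assoc, Nat.add_comm 1 i]
    · rintro ⟨i, l, j, h1, h2, h3⟩
      cases i with
      | zero =>
        left
        rw [List.getElem?_cons_zero, Option.some_inj] at h1
        subst h1
        exact ⟨j, List.mem_range.2 h2, h3.symm⟩
      | succ i =>
        right
        rw [List.getElem?_cons_succ] at h1
        refine ⟨i, l, j, h1, h2, ?_⟩
        rw [h3, Nat.add_assoc, Nat.add_comm 1 i]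

theorem toG_names {b : ℕ} {bs : List Blk} {w : Name} :
    w ∈ (toG b bs).map Prod.fst ↔ ∃ i l, bs[i]? = some l ∧ w.1 = b + i ∧ w.2 < l.1 := by
  rw [List.mem_map]
  constructor
  · rintro ⟨g, hg, rfl⟩
    obtain ⟨i, l, j, h1, h2, rfl⟩ := mem_toG.1 hg
    exact ⟨i, l, h1, rfl, h2⟩
  · rintro ⟨i, l, h1, h2, h3⟩
    refine ⟨((b + i, w.2), l.2 w.2), mem_toG.2 ⟨i, l, w.2, h1, h3, rfl⟩, ?_⟩
    rw [← h2]

theorem toG_sorted (b : ℕ) (bs : List Blk) : ((toG b bs).map Prod.fst).Pairwise nlt := by
  induction bs generalizing b with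
  | nil => exact List.Pairwise.nil
  | cons a bs ih =>
    rw [toG, List.map_append, List.pairwise_append]
    refine ⟨?_, ih _, ?_⟩
    · rw [List.map_map, List.pairwise_map]
      refine List.Pairwise.imp ?_ List.pairwise_lt_range
      intro i j hij
      exact Or.inr ⟨rfl, hij⟩
    · intro w hw w' hw'
      rw [List.map_map, List.mem_map] at hw
      obtain ⟨i, _, rfl⟩ := hw
      obtain ⟨i', l, _, h2, _⟩ := toG_names.1 hw'
      left
      change b < w'.1
      omega

/-- names of the inputs -/
def inNames (N : ℕ) : List Name := (List.range N).map fun i => (0, i)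

theorem length_inNames (N : ℕ) : (inNames N).length = N := by
  unfold inNames
  simp

/-- the numbers of gates with given first component of the name -/
def cnt (N : ℕ) (bs : List Blk) (b : ℕ) : ℕ := (N :: bs.map Prod.fst).getD b 0

theorem mem_names {N : ℕ} {bs : List Blk} {r : Name} (h : r.2 < cnt N bs r.1) :
    r ∈ inNames N ++ (toG 1 bs).map Prod.fst := by
  rw [List.mem_append]
  unfold cnt at h
  rcases Nat.eq_zero_or_pos r.1 with h0 | h0
  · left
    rw [h0, List.getD_cons_zero] at h
    unfold inNames
    rw [List.mem_map]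
    exact ⟨r.2, List.mem_range.2 h, by rw [← h0]⟩
  · right
    obtain ⟨b, hb⟩ : ∃ b, r.1 = b + 1 := ⟨r.1 - 1, by omega⟩
    rw [hb, List.getD_cons_succ] at h
    have hlt : b < bs.length := by
      by_contra hcon
      rw [List.getD_eq_default _ _ (by rw [List.length_map]; omega)] at h
      omega
    rw [List.getD_eq_getElem _ _ (by rw [List.length_map]; exact hlt), List.getElem_map] at h
    exact toG_names.2 ⟨b, bs[b], List.getElem?_eq_getElem hlt, by omega, h⟩

theorem names_sorted (N : ℕ) (bs : List Blk) :
    (inNames N ++ (toG 1 bs).map Prod.fst).Pairwise nlt := by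
  rw [List.pairwise_append]
  refine ⟨?_, toG_sorted 1 bs, ?_⟩
  · unfold inNames
    rw [List.pairwise_map]
    refine List.Pairwise.imp ?_ List.pairwise_lt_range
    intro i j hij
    exact Or.inr ⟨rfl, hij⟩
  · intro w hw w' hw'
    unfold inNames at hw
    rw [List.mem_map] at hw
    obtain ⟨i, _, rfl⟩ := hw
    obtain ⟨i', l, _, h2, _⟩ := toG_names.1 hw'
    left
    change 0 < w'.1
    omega

/-- the condition on a block that makes the whole list well formed -/
def BlkOK (N : ℕ) (bs : List Blk) (b : ℕ) (l : Blk) : Prop :=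
  ∀ i < l.1, (l.2 i).2 ≠ [] ∧ ∀ r ∈ (l.2 i).2, r.2 < cnt N bs r.1 ∧ nlt r (b, i)

/-- all blocks of a list, numbered from `b` on, satisfy `P` -/
def AllB (P : ℕ → Blk → Prop) : ℕ → List Blk → Prop
  | _, [] => True
  | b, l :: bs => P b l ∧ AllB P (b + 1) bs

theorem allB_getElem? {P : ℕ → Blk → Prop} {b : ℕ} {bs : List Blk} (h : AllB P b bs) {i : ℕ}
    {l : Blk} (hl : bs[i]? = some l) : P (b + i) l := by
  induction bs generalizing b i with
  | nil => simp at hl
  | cons a bs ih =>
    cases i with
    | zero =>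
      rw [List.getElem?_cons_zero, Option.some_inj] at hl
      subst hl
      exact h.1
    | succ i =>
      rw [List.getElem?_cons_succ] at hl
      have := ih h.2 hl
      rwa [Nat.add_assoc, Nat.add_comm 1 i] at this

theorem wf_blocks {N : ℕ} {bs : List Blk} (h : AllB (BlkOK N bs) 1 bs) :
    WF (inNames N) (toG 1 bs) := by
  have hs := names_sorted N bs
  refine ⟨?_, ?_, ?_⟩
  · refine List.Pairwise.imp ?_ hs
    intro a b hab hne
    rw [hne] at hab
    exact nlt_irrefl _ hab
  · intro g hg
    obtain ⟨i, l, j, h1, h2, rfl⟩ := mem_toG.1 hg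
    exact (allB_getElem? h h1 j h2).1
  · intro k hk r hr
    obtain ⟨i, l, j, h1, h2, h3⟩ := mem_toG.1 (List.getElem_mem hk)
    rw [h3] at hr
    obtain ⟨h4, h5⟩ := (allB_getElem? h h1 j h2).2 r hr
    obtain ⟨p, hp, hpr⟩ := List.getElem_of_mem (mem_names h4)
    refine ⟨p, ?_, ?_⟩
    · by_contra hcon
      have hq : (inNames N).length + k < (inNames N ++ (toG 1 bs).map Prod.fst).length := by
        rw [List.length_append, List.length_map]
        omega
      have hqe : (inNames N ++ (toG 1 bs).map Prod.fst)[(inNames N).length + k] =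
          (1 + i, j) := by
        rw [List.getElem_append_right (by omega), List.getElem_map]
        simp only [Nat.add_sub_cancel_left]
        rw [h3]
      rcases Nat.lt_or_eq_of_le (Nat.le_of_not_lt hcon) with h6 | h6
      · have := List.pairwise_iff_getElem.1 hs _ _ hq hp h6
        rw [hqe, hpr] at this
        exact nlt_asymm this h5
      · have h7 : (inNames N ++ (toG 1 bs).map Prod.fst)[p] = (1 + i, j) := by
          rw [← hqe]
          congr 1
          exact h6.symm
        rw [← hpr, h7] at h5
        exact nlt_irrefl _ h5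
    · rw [List.getElem?_eq_getElem hp, hpr]

/-- what we know about the environment, block by block -/
theorem sat_blocks {E : Name → Bool} {bs : List Blk} (h : ∀ g ∈ toG 1 bs, GSat E g) {i : ℕ}
    {l : Blk} (hl : bs[i]? = some l) : ∀ j < l.1, GSat E ((1 + i, j), l.2 j) :=
  fun j hj => h _ (mem_toG.2 ⟨i, l, j, hl, hj, rfl⟩)

theorem sat_and {E : Name → Bool} {w : Name} {rs : List Name} (h : GSat E (w, some true, rs)) :
    E w = true ↔ ∀ r ∈ rs, E r = true := h

theorem sat_or {E : Name → Bool} {w : Name} {rs : List Name} (h : GSat E (w, some false, rs)) :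
    E w = true ↔ ∃ r ∈ rs, E r = true := h

theorem sat_not {E : Name → Bool} {w r : Name} (h : GSat E (w, none, [r])) :
    E w = !E r := h r rfl

end Pool.Agent.MPa0a715
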