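import Mathlib

/-!
# The combinatorics of the legal states

The coordinates are `0, ..., 3 m + 1`.  The path consists of the sets
`S u = {i | u / 3 ≤ i < u - u / 3}`, `u = 0, ..., 3 m + 1`.
-/

namespace Pool.Agent.MPa0a715

section
variable (m : ℕ) (Y : ℕ → Bool)

/-- `Y` contains the `u`-th set of the path -/
def Sup (u : ℕ) : Prop := ∀ i, u / 3 ≤ i → i < u - u / 3 → Y i = true

/-- `Y` has an element outside the `u`-th set of the path -/
def Out (u : ℕ) : Prop := ∃ i < 3 * m + 2, ¬ (u / 3 ≤ i ∧ i < u - u / 3) ∧ Y i = true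

/-- some set of the path of the given residue is contained in `Y` -/
def Some (c : ℕ) : Prop := ∃ u, 1 ≤ u ∧ u ≤ 3 * m ∧ u % 3 = c ∧ Sup Y u

/-- some set of the path of the given residue is properly contained in `Y` -/
def Proper (c : ℕ) : Prop := ∃ u, 1 ≤ u ∧ u ≤ 3 * m ∧ u % 3 = c ∧ Sup Y u ∧ Out m Y u

def All : Prop := ∀ i ≤ m, Y (m + i) = true ∨ Y (2 * m + 1 + i) = true
def Ful (i : ℕ) : Prop := Y (m + i) = true ∧ Y (2 * m + 1 + i) = true
def AnyF : Prop := ∃ i ≤ m, Ful m Y i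
def Two : Prop := ∃ i ≤ m, Ful m Y i ∧ ∃ j ≤ m, j ≠ i ∧ Ful m Y j
def Low : Prop := ∃ i < m, Y i = true
def U3 : Prop := (All m Y ∧ AnyF m Y) ∨ Some m Y 2
def U2 : Prop := All m Y ∨ Some m Y 1
def U1 : Prop := U2 m Y ∨ Some m Y 0
def Q : Prop := ¬ ((U1 m Y ∧ ¬ U2 m Y) ∨ U3 m Y)
def Any : Prop := ∃ i < 3 * m + 2, Y i = true

def Ill : Prop :=
  (¬ U2 m Y ∧ Q m Y ∧ Any m Y) ∨ ((U1 m Y ∧ ¬ U2 m Y) ∧ Proper m Y 0) ∨
  ((U2 m Y ∧ Q m Y) ∧ ((All m Y ∧ Low m Y) ∨ Proper m Y 1)) ∨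
  (U3 m Y ∧ ((All m Y ∧ (Two m Y ∨ (AnyF m Y ∧ Low m Y))) ∨ Proper m Y 2))

/-- bit of the path block for the `u`-th set -/
def PBit (u : ℕ) : Prop :=
  (u = 0 ∧ ¬ U2 m Y ∧ Q m Y) ∨
  (0 < u ∧ u ≤ 3 * m ∧ Sup Y u ∧ ((u % 3 = 0 ∧ U1 m Y ∧ ¬ U2 m Y) ∨
    (u % 3 = 1 ∧ U2 m Y ∧ Q m Y) ∨ (u % 3 = 2 ∧ U3 m Y)))

/-- `Y` is the `u`-th set of the path -/
def IsS (u : ℕ) : Prop := ∀ i < 3 * m + 2, (Y i = true ↔ u / 3 ≤ i ∧ i < u - u / 3)

/-- `Y` encodes an input of the given circuit -/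
def IsZ : Prop := (∀ i < m, Y i = false) ∧ ∀ i ≤ m, Y (m + i) = !Y (2 * m + 1 + i)

/-- `Y` lies between the codes of two neighbours -/
def IsMid (k : ℕ) : Prop := k ≤ m ∧ (∀ i < m, Y i = false) ∧ Ful m Y k ∧
  ∀ i ≤ m, i ≠ k → Y (m + i) = !Y (2 * m + 1 + i)

end

section
variable {m : ℕ} {Y : ℕ → Bool}

theorem cases_legal (h : ¬ Ill m Y) :
    (∃ u ≤ 3 * m, IsS m Y u) ∨ IsZ m Y ∨ ∃ k, IsMid m Y k := by
  have hS : ∀ u ≤ 3 * m, Sup Y u → ¬ Out m Y u → IsS m Y u := by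
    intro u hu h1 h2 i hi
    constructor
    · intro hY
      by_contra hcon
      exact h2 ⟨i, hi, hcon, hY⟩
    · intro hY
      exact h1 i hY.1 hY.2
  have hlow : ¬ Low m Y → ∀ i < m, Y i = false := by
    intro h1 i hi
    rw [← Bool.not_eq_true]
    intro h2
    exact h1 ⟨i, hi, h2⟩
  unfold Ill at h
  push Not at h
  obtain ⟨h0, h1, h2, h3⟩ := h
  by_cases hU3 : U3 m Y
  · obtain ⟨h4, h5⟩ := h3 hU3
    rcases hU3 with ⟨hA, hF⟩ | ⟨u, hu1, hu2, hu3, hu4⟩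
    · right; right
      obtain ⟨h6, h7⟩ := h4 hA
      obtain ⟨k, hk, hF'⟩ := hF
      refine ⟨k, hk, hlow (h7 ⟨k, hk, hF'⟩), hF', ?_⟩
      intro i hi hik
      have h8 := hA i hi
      have h9 : ¬ Ful m Y i := fun h9 => h6 ⟨k, hk, hF', i, hi, hik, h9⟩
      unfold Ful at h9
      revert h8 h9
      cases Y (m + i) <;> cases Y (2 * m + 1 + i) <;> simp
    · left
      refine ⟨u, hu2, hS u hu2 hu4 fun hout => h5 ⟨u, hu1, hu2, hu3, hu4, hout⟩⟩
  · by_cases hU2 : U2 m Y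
    · have hQ : Q m Y := by
        unfold Q
        tauto
      obtain ⟨h4, h5⟩ := h2 ⟨hU2, hQ⟩
      rcases hU2 with hA | ⟨u, hu1, hu2, hu3, hu4⟩
      · right; left
        refine ⟨hlow (h4 hA), fun i hi => ?_⟩
        have h8 := hA i hi
        have h9 : ¬ Ful m Y i := fun h9 => hU3 (Or.inl ⟨hA, i, hi, h9⟩)
        unfold Ful at h9
        revert h8 h9
        cases Y (m + i) <;> cases Y (2 * m + 1 + i) <;> simp
      · left
        refine ⟨u, hu2, hS u hu2 hu4 fun hout => h5 ⟨u, hu1, hu2, hu3, hu4, hout⟩⟩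
    · by_cases hU1 : U1 m Y
      · have h4 := h1 ⟨hU1, hU2⟩
        rcases hU1 with hU1 | ⟨u, hu1, hu2, hu3, hu4⟩
        · exact absurd hU1 hU2
        · left
          refine ⟨u, hu2, hS u hu2 hu4 fun hout => h4 ⟨u, hu1, hu2, hu3, hu4, hout⟩⟩
      · have hQ : Q m Y := by
          unfold Q
          tauto
        have h4 := h0 hU2 hQ
        left
        refine ⟨0, Nat.zero_le _, fun i hi => ?_⟩
        constructor
        · intro hY
          exact absurd ⟨i, hi, hY⟩ h4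
        · intro hY
          omega

/-! ### states of the path -/

theorem sup_of_isS {u v : ℕ} (hu : u ≤ 3 * m + 1) (h : IsS m Y u) (hv : 1 ≤ v)
    (hv' : v ≤ 3 * m + 1) : Sup Y v ↔ u / 3 ≤ v / 3 ∧ v - v / 3 ≤ u - u / 3 := by
  constructor
  · intro h1
    have h2 := (h (v / 3) (by omega)).1 (h1 (v / 3) le_rfl (by omega))
    have h3 := (h (v - v / 3 - 1) (by omega)).1 (h1 (v - v / 3 - 1) (by omega) (by omega))
    omega
  · intro h1 i hi1 hi2
    exact (h i (by omega)).2 (by omega)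

theorem not_all_of_isS {u : ℕ} (hu : u ≤ 3 * m) (h : IsS m Y u) : ¬ All m Y := by
  intro h1
  rcases h1 m le_rfl with h2 | h2
  · have := (h _ (by omega)).1 h2
    omega
  · have := (h _ (by omega)).1 h2
    omega

theorem some_of_isS {u : ℕ} (hu0 : 1 ≤ u) (hu : u ≤ 3 * m) (h : IsS m Y u) :
    Some m Y (u % 3) :=
  ⟨u, hu0, hu, rfl, (sup_of_isS (by omega) h hu0 (by omega)).2 ⟨le_rfl, le_rfl⟩⟩

/-- `u` sets of smaller level contain no set of higher level -/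
theorem not_some_of_isS {u c : ℕ} (hu : u ≤ 3 * m) (h : IsS m Y u)
    (hc : (u % 3 = 0 ∧ 1 ≤ c) ∨ (u % 3 = 1 ∧ c = 2) ∨ u = 0) : ¬ Some m Y c := by
  rintro ⟨v, hv1, hv2, hv3, hv4⟩
  rw [sup_of_isS (by omega) h hv1 (by omega)] at hv4
  omega

theorem not_proper_of_isS {u : ℕ} (hu : u ≤ 3 * m) (h : IsS m Y u) :
    ¬ Proper m Y (u % 3) := by
  rintro ⟨v, hv1, hv2, hv3, hv4, hv5⟩
  rw [sup_of_isS (by omega) h hv1 (by omega)] at hv4
  have : u = v := by omega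
  subst this
  obtain ⟨i, hi1, hi2, hi3⟩ := hv5
  exact hi2 ((h i hi1).1 hi3)

/-- levels on the path -/
theorem level_of_isS {u : ℕ} (hu : u ≤ 3 * m) (h : IsS m Y u) :
    (U1 m Y ↔ 1 ≤ u) ∧ (U2 m Y ↔ u % 3 = 1 ∨ u % 3 = 2) ∧ (U3 m Y ↔ u % 3 = 2) := by
  have hA := not_all_of_isS hu h
  have h3 : U3 m Y ↔ u % 3 = 2 := by
    unfold U3
    constructor
    · rintro (⟨h1, _⟩ | h1)
      · exact absurd h1 hA
      · by_contra hcon
        exact not_some_of_isS hu h (by omega) h1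
    · intro h1
      right
      rw [← h1]
      exact some_of_isS (by omega) hu h
  have h2 : U2 m Y ↔ u % 3 = 1 ∨ u % 3 = 2 := by
    unfold U2
    constructor
    · rintro (h1 | h1)
      · exact absurd h1 hA
      · by_contra hcon
        exact not_some_of_isS hu h (by omega) h1
    · rintro (h1 | h1)
      · right
        rw [← h1]
        exact some_of_isS (by omega) hu h
      · right
        refine ⟨u - 1, by omega, by omega, by omega, ?_⟩
        rw [sup_of_isS (by omega) h (by omega) (by omega)]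
        omega
  refine ⟨?_, h2, h3⟩
  unfold U1
  rw [h2]
  constructor
  · rintro (h1 | h1)
    · omega
    · by_contra hcon
      exact not_some_of_isS hu h (by omega) h1
  · intro h1
    by_cases h4 : u % 3 = 0
    · right
      rw [← h4]
      exact some_of_isS h1 hu h
    · left
      omega

theorem q_of_isS {u : ℕ} (hu : u ≤ 3 * m) (h : IsS m Y u) :
    Q m Y ↔ u = 0 ∨ u % 3 = 1 := by
  obtain ⟨h1, h2, h3⟩ := level_of_isS hu h
  unfold Q
  rw [h1, h2, h3]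
  omega

theorem legal_of_isS {u : ℕ} (hu : u ≤ 3 * m) (h : IsS m Y u) : ¬ Ill m Y := by
  obtain ⟨h1, h2, h3⟩ := level_of_isS hu h
  have hA := not_all_of_isS hu h
  have hQ := q_of_isS hu h
  have hP := not_proper_of_isS hu h
  unfold Ill
  rw [h1, h2, h3, hQ]
  rintro (⟨h4, h5, h6⟩ | ⟨h4, h5⟩ | ⟨h4, h5⟩ | ⟨h4, h5⟩)
  · have hu0 : u = 0 := by omega
    subst hu0
    obtain ⟨i, hi, hY⟩ := h6
    have := (h i hi).1 hY
    omega
  · have : u % 3 = 0 := by omega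
    rw [this] at hP
    exact hP h5
  · rcases h5 with ⟨h6, _⟩ | h6
    · exact hA h6
    · have : u % 3 = 1 := by omega
      rw [this] at hP
      exact hP h6
  · rcases h5 with ⟨h6, _⟩ | h6
    · exact hA h6
    · rw [h4] at hP
      exact hP h6

theorem pbit_of_isS {u v : ℕ} (hu : u ≤ 3 * m) (h : IsS m Y u) : PBit m Y v ↔ v = u := by
  obtain ⟨h1, h2, h3⟩ := level_of_isS hu h
  have hQ := q_of_isS hu h
  unfold PBit
  rw [h1, h2, h3, hQ]
  constructor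
  · rintro (⟨h4, h5, h6⟩ | ⟨h4, h5, h6, h7⟩)
    · omega
    · rw [sup_of_isS (by omega) h h4 (by omega)] at h6
      omega
  · rintro rfl
    rcases Nat.eq_zero_or_pos v with h4 | h4
    · left
      omega
    · right
      refine ⟨h4, hu, ?_, by omega⟩
      rw [sup_of_isS (by omega) h h4 (by omega)]
      omega

/-! ### codes of inputs -/

theorem not_sup_of_low {v : ℕ} (h : ∀ i < m, Y i = false) (hv : v ≤ 3 * m) (hv1 : v % 3 ≠ 0) :
    ¬ Sup Y v := by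
  intro h1
  have h2 := h1 (v / 3) le_rfl (by omega)
  rw [h (v / 3) (by omega)] at h2
  exact Bool.false_ne_true h2

theorem not_some_of_low {c : ℕ} (h : ∀ i < m, Y i = false) (hc : 1 ≤ c) : ¬ Some m Y c := by
  rintro ⟨v, hv1, hv2, hv3, hv4⟩
  exact not_sup_of_low h hv2 (by omega) hv4

theorem not_proper_of_low {c : ℕ} (h : ∀ i < m, Y i = false) (hc : 1 ≤ c) :
    ¬ Proper m Y c := by
  rintro ⟨v, hv1, hv2, hv3, hv4, _⟩
  exact not_sup_of_low h hv2 (by omega) hv4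

theorem not_low {Y : ℕ → Bool} (h : ∀ i < m, Y i = false) : ¬ Low m Y := by
  rintro ⟨i, hi, hY⟩
  rw [h i hi] at hY
  exact Bool.false_ne_true hY

theorem isZ_facts (h : IsZ m Y) :
    All m Y ∧ ¬ AnyF m Y ∧ U2 m Y ∧ ¬ U3 m Y ∧ Q m Y := by
  have hA : All m Y := by
    intro i hi
    rw [h.2 i hi]
    cases Y (2 * m + 1 + i) <;> simp
  have hF : ¬ AnyF m Y := by
    rintro ⟨i, hi, h1, h2⟩
    rw [h.2 i hi, h2] at h1
    exact Bool.false_ne_true h1
  have h2 : U2 m Y := Or.inl hA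
  have h3 : ¬ U3 m Y := by
    rintro (⟨_, h4⟩ | h4)
    · exact hF h4
    · exact not_some_of_low h.1 (by omega) h4
  refine ⟨hA, hF, h2, h3, ?_⟩
  unfold Q
  tauto

theorem legal_of_isZ (h : IsZ m Y) : ¬ Ill m Y := by
  obtain ⟨h1, h2, h3, h4, h5⟩ := isZ_facts h
  have h6 := not_low h.1
  have h7 := not_proper_of_low h.1 (c := 1) le_rfl
  unfold Ill
  tauto

theorem pbit_of_isZ (h : IsZ m Y) (v : ℕ) : ¬ PBit m Y v := by
  obtain ⟨h1, h2, h3, h4, h5⟩ := isZ_facts h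
  unfold PBit
  rintro (⟨_, h6, _⟩ | ⟨_, h7, h6, h8⟩)
  · exact h6 h3
  · by_cases hv : v % 3 = 0
    · rcases h8 with ⟨_, _, h9⟩ | ⟨h9, _⟩ | ⟨h9, _⟩
      · exact h9 h3
      · omega
      · omega
    · exact not_sup_of_low h.1 h7 hv h6

theorem isMid_facts {k : ℕ} (h : IsMid m Y k) :
    All m Y ∧ AnyF m Y ∧ U2 m Y ∧ U3 m Y ∧ ¬ Q m Y := by
  obtain ⟨hk, hl, hf, hr⟩ := h
  have hA : All m Y := by
    intro i hi
    by_cases hik : i = k
    · rw [hik]; exact Or.inl hf.1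
    · rw [hr i hi hik]
      cases Y (2 * m + 1 + i) <;> simp
  have hF : AnyF m Y := ⟨k, hk, hf⟩
  have h2 : U2 m Y := Or.inl hA
  have h3 : U3 m Y := Or.inl ⟨hA, hF⟩
  refine ⟨hA, hF, h2, h3, ?_⟩
  unfold Q
  tauto

theorem not_two {k : ℕ} (h : IsMid m Y k) : ¬ Two m Y := by
  obtain ⟨hk, hl, hf, hr⟩ := h
  have key : ∀ i ≤ m, Ful m Y i → i = k := by
    intro i hi h1
    by_contra hik
    have h2 := hr i hi hik
    rw [h1.1, h1.2] at h2
    exact Bool.false_ne_true h2.symm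
  rintro ⟨i, hi, h1, j, hj, h2, h3⟩
  exact h2 ((key j hj h3).trans (key i hi h1).symm)

theorem legal_of_isMid {k : ℕ} (h : IsMid m Y k) : ¬ Ill m Y := by
  obtain ⟨h1, h2, h3, h4, h5⟩ := isMid_facts h
  have h6 := not_low h.2.1
  have h7 := not_proper_of_low h.2.1 (c := 2) (by omega)
  have h8 := not_two h
  unfold Ill
  tauto

theorem pbit_of_isMid {k : ℕ} (h : IsMid m Y k) (v : ℕ) : ¬ PBit m Y v := by
  obtain ⟨h1, h2, h3, h4, h5⟩ := isMid_facts h
  unfold PBit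
  rintro (⟨_, h6, _⟩ | ⟨_, h7, h6, h8⟩)
  · exact h6 h3
  · by_cases hv : v % 3 = 0
    · rcases h8 with ⟨_, _, h9⟩ | ⟨h9, _⟩ | ⟨h9, _⟩
      · exact h9 h3
      · omega
      · omega
    · exact not_sup_of_low h.2.1 h7 hv h6

/-- the last set of the path is a code -/
theorem isZ_of_isS (h : IsS m Y (3 * m + 1)) : IsZ m Y := by
  have h1 : ∀ i < 3 * m + 2, (Y i = true ↔ m ≤ i ∧ i < 2 * m + 1) := by
    intro i hi
    rw [h i hi]
    omega
  constructor
  · intro i hi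
    rw [← Bool.not_eq_true, h1 i (by omega)]
    omega
  · intro i hi
    have h2 : Y (m + i) = true := (h1 _ (by omega)).2 (by omega)
    have h3 : Y (2 * m + 1 + i) = false := by
      rw [← Bool.not_eq_true, h1 _ (by omega)]
      omega
    rw [h2, h3]
    rfl

end

end Pool.Agent.MPa0a715
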