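import Pool.Agent.Lib.MP_a0a715_lc.Sem

/-!
# Circuits with named gates of unbounded fan-in, and their translation to circuits
-/

namespace Pool.Agent.MPa0a715

open Pool.Agent.PolyTime

/-- names of wires -/
abbrev Name := ℕ × ℕ

/-- a gate with its name, kind and the names of the wires read -/
abbrev NG := Name × (Option Bool × List Name)

/-- the environment `E` respects the gate `g` -/
def GSat (E : Name → Bool) (g : NG) : Prop :=
  match g.2.1 with
  | some true => (E g.1 = true ↔ ∀ r ∈ g.2.2, E r = true)
  | some false => (E g.1 = true ↔ ∃ r ∈ g.2.2, E r = true)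
  | none => ∀ r, g.2.2 = [r] → E g.1 = !E r

/-- position of a name -/
def pos (names : List Name) (w : Name) : ℕ :=
  (((names.zip (List.range names.length)).find? (fun p => decide (p.1 = w))).map Prod.snd).getD 0

theorem pos_getElem {names : List Name} (hn : names.Nodup) {j : ℕ} (hj : j < names.length) :
    pos names names[j] = j := by
  unfold pos
  have h1 : (names.zip (List.range names.length)).find? (fun p => decide (p.1 = names[j])) =
      some (names[j], j) := by
    have hlen : (names.zip (List.range names.length)).length = names.length := by simp
    rw [List.find?_eq_some_iff_getElem]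
    refine ⟨by simp, j, by rw [hlen]; exact hj, by simp, ?_⟩
    intro i hi
    simp only [List.getElem_zip, List.getElem_range, Bool.not_eq_eq_eq_not, Bool.not_true,
      decide_eq_false_iff_not]
    intro h
    have := (List.Nodup.getElem_inj_iff hn).1 h
    omega
  rw [h1]
  rfl

/-- number of the wire with a name -/
def wireOf (N K : ℕ) (names : List Name) (w : Name) : ℕ :=
  if pos names w < N then pos names w else N + (pos names w - N + 1) * K - 1

/-- the gate in step `i` of the evaluation of a gate of unbounded fan-in -/
def mkGate (kind : Option Bool) (prev head r i : ℕ) : Gate :=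
  match kind with
  | some true => .and (if i = 0 then head else prev) r
  | some false => .or (if i = 0 then head else prev) r
  | none => if i = 0 then .not head else .and prev prev

/-- the `t`-th gate -/
def cgate (N K : ℕ) (names : List Name) (gs : List NG) (t : ℕ) : Gate :=
  match gs[t / K]? with
  | none => .and 0 0
  | some g => mkGate g.2.1 (N + t - 1) (wireOf N K names (g.2.2.headD (0, 0)))
      (wireOf N K names (g.2.2.getD (t % K) (g.2.2.headD (0, 0)))) (t % K)

/-- bound for the fan-in -/
def fanin (gs : List NG) : ℕ := (gs.flatMap fun g => g.2.2).length + 1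

/-- translation to circuits -/
def compile (ins : List Name) (gs : List NG) (outs : List Name) : Circuit where
  n := ins.length
  gates := (List.range (gs.length * fanin gs)).map
    (cgate ins.length (fanin gs) (ins ++ gs.map Prod.fst) gs)
  outs := outs.map (wireOf ins.length (fanin gs) (ins ++ gs.map Prod.fst))

/-- well-formed lists of named gates -/
structure WF (ins : List Name) (gs : List NG) : Prop where
  nodup : (ins ++ gs.map Prod.fst).Nodup
  ne : ∀ g ∈ gs, g.2.2 ≠ []
  refs : ∀ (k : ℕ) (h : k < gs.length), ∀ r ∈ gs[k].2.2,
    ∃ j < ins.length + k, (ins ++ gs.map Prod.fst)[j]? = some r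

theorem length_le_fanin {gs : List NG} {g : NG} (hg : g ∈ gs) : g.2.2.length < fanin gs := by
  unfold fanin
  induction gs with
  | nil => exact absurd hg List.not_mem_nil
  | cons a gs ih =>
    rw [List.flatMap_cons, List.length_append]
    rcases List.mem_cons.1 hg with rfl | h
    · omega
    · have := ih h
      omega

section
variable {ins : List Name} {gs : List NG} {outs : List Name}

theorem pos_of_getElem? (h : WF ins gs) {j : ℕ} {r : Name}
    (hj : (ins ++ gs.map Prod.fst)[j]? = some r) : pos (ins ++ gs.map Prod.fst) r = j := by
  obtain ⟨h1, h2⟩ := List.getElem?_eq_some_iff.1 hj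
  rw [← h2]
  exact pos_getElem h.nodup h1

theorem wireOf_lt (h : WF ins gs) {k t : ℕ} (hk : k < gs.length) {r : Name}
    (hr : r ∈ gs[k].2.2) (ht : k * fanin gs ≤ t) :
    wireOf ins.length (fanin gs) (ins ++ gs.map Prod.fst) r < ins.length + t := by
  obtain ⟨j, hj, hj'⟩ := h.refs k hk r hr
  unfold wireOf
  rw [pos_of_getElem? h hj']
  split_ifs with h1
  · omega
  · have h2 : (j - ins.length + 1) * fanin gs ≤ k * fanin gs :=
      Nat.mul_le_mul_right _ (by omega)
    have h3 : 0 < (j - ins.length + 1) * fanin gs :=
      Nat.mul_pos (by omega) (by unfold fanin; omega)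
    omega

theorem fanin_pos : 0 < fanin gs := by unfold fanin; omega

theorem cgate_eq {k i : ℕ} (hk : k < gs.length) (hi : i < fanin gs) (names : List Name) (N : ℕ) :
    cgate N (fanin gs) names gs (k * fanin gs + i) =
      mkGate gs[k].2.1 (N + (k * fanin gs + i) - 1) (wireOf N (fanin gs) names
        (gs[k].2.2.headD (0, 0))) (wireOf N (fanin gs) names
        (gs[k].2.2.getD i (gs[k].2.2.headD (0, 0)))) i := by
  have h1 : (k * fanin gs + i) / fanin gs = k := by
    rw [Nat.mul_comm, Nat.mul_add_div fanin_pos, Nat.div_eq_of_lt hi, Nat.add_zero]
  have h2 : (k * fanin gs + i) % fanin gs = i := by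
    rw [Nat.mul_comm, Nat.mul_add_mod, Nat.mod_eq_of_lt hi]
  unfold cgate
  rw [h1, h2, List.getElem?_eq_getElem hk]

theorem headD_mem {l : List Name} (hl : l ≠ []) : l.headD (0, 0) ∈ l := by
  cases l with
  | nil => exact absurd rfl hl
  | cons a l => exact List.mem_cons_self

theorem getD_mem {l : List Name} (hl : l ≠ []) (i : ℕ) : l.getD i (l.headD (0, 0)) ∈ l := by
  by_cases hi : i < l.length
  · rw [List.getD_eq_getElem _ _ hi]
    exact List.getElem_mem hi
  · rw [List.getD_eq_default _ _ (by omega)]
    exact headD_mem hl

theorem mkGate_refs {kind : Option Bool} {prev head r i b : ℕ} (h1 : 0 < i → prev < b)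
    (h2 : head < b) (h3 : r < b) : ∀ s ∈ (mkGate kind prev head r i).refs, s < b := by
  intro s hs
  unfold mkGate at hs
  match kind with
  | some true =>
    simp only [Gate.refs, List.mem_cons, List.not_mem_nil, or_false] at hs
    rcases hs with rfl | rfl
    · split_ifs with h
      · exact h2
      · exact h1 (by omega)
    · exact h3
  | some false =>
    simp only [Gate.refs, List.mem_cons, List.not_mem_nil, or_false] at hs
    rcases hs with rfl | rfl
    · split_ifs with h
      · exact h2
      · exact h1 (by omega)
    · exact h3
  | none =>
    dsimp only at hs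
    split_ifs at hs with h
    · simp only [Gate.refs, List.mem_cons, List.not_mem_nil, or_false] at hs
      rw [hs]; exact h2
    · simp only [Gate.refs, List.mem_cons, List.not_mem_nil, or_false, or_self] at hs
      rw [hs]; exact h1 (by omega)

theorem length_gates : (compile ins gs outs).gates.length = gs.length * fanin gs := by
  unfold compile
  simp

theorem div_lt {t : ℕ} (ht : t < gs.length * fanin gs) : t / fanin gs < gs.length := by
  rw [Nat.div_lt_iff_lt_mul fanin_pos]
  exact ht

theorem getElem_gates {k i : ℕ} (hk : k < gs.length) (hi : i < fanin gs)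
    (h : k * fanin gs + i < (compile ins gs outs).gates.length) :
    (compile ins gs outs).gates[k * fanin gs + i] =
      mkGate gs[k].2.1 (ins.length + (k * fanin gs + i) - 1)
        (wireOf ins.length (fanin gs) (ins ++ gs.map Prod.fst) (gs[k].2.2.headD (0, 0)))
        (wireOf ins.length (fanin gs) (ins ++ gs.map Prod.fst)
          (gs[k].2.2.getD i (gs[k].2.2.headD (0, 0)))) i := by
  rw [← cgate_eq hk hi]
  unfold compile
  simp

theorem index_lt {k i : ℕ} (hk : k < gs.length) (hi : i < fanin gs) :
    k * fanin gs + i < (compile ins gs outs).gates.length := by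
  rw [length_gates]
  have : (k + 1) * fanin gs ≤ gs.length * fanin gs := Nat.mul_le_mul_right _ hk
  rw [Nat.add_mul, Nat.one_mul] at this
  omega

theorem compile_valid (h : WF ins gs) (ho : ∀ o ∈ outs, o ∈ gs.map Prod.fst) :
    (compile ins gs outs).Valid := by
  constructor
  · intro t ht
    have ht' := ht
    rw [length_gates] at ht'
    have hk := div_lt ht'
    have hi := Nat.mod_lt t (fanin_pos (gs := gs))
    have hsplit : t = t / fanin gs * fanin gs + t % fanin gs := by
      rw [Nat.mul_comm]; exact (Nat.div_add_mod t (fanin gs)).symm
    generalize t / fanin gs = k at hk hsplit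
    generalize t % fanin gs = i at hi hsplit
    subst hsplit
    rw [getElem_gates hk hi]
    have hne := h.ne _ (List.getElem_mem hk)
    apply mkGate_refs
    · intro hi0
      change _ < ins.length + _
      omega
    · exact wireOf_lt h hk (headD_mem hne) (by omega)
    · exact wireOf_lt h hk (getD_mem hne i) (by omega)
  · intro o ho'
    have h1 : o ∈ outs.map (wireOf ins.length (fanin gs) (ins ++ gs.map Prod.fst)) := ho'
    obtain ⟨w, hw, rfl⟩ := List.mem_map.1 h1
    obtain ⟨k, hk, hkw⟩ := List.getElem_of_mem (ho w hw)
    rw [List.length_map] at hk
    have h2 : (ins ++ gs.map Prod.fst)[ins.length + k]? = some w := by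
      rw [List.getElem?_append_right (by omega), Nat.add_sub_cancel_left,
        List.getElem?_eq_getElem (by rw [List.length_map]; exact hk), hkw]
    have h3 : (k + 1) * fanin gs ≤ gs.length * fanin gs := Nat.mul_le_mul_right _ hk
    have h4 : 0 < (k + 1) * fanin gs := Nat.mul_pos (by omega) fanin_pos
    unfold wireOf
    rw [pos_of_getElem? h h2, if_neg (by omega), Nat.add_sub_cancel_left, length_gates]
    change ins.length ≤ _ ∧ _ < ins.length + _
    omega

/-- the environment given by a run of the translated circuit -/
def cenv (ins : List Name) (gs : List NG) (outs : List Name) (x : List Bool) (w : Name) : Bool :=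
  (compile ins gs outs).env x (wireOf ins.length (fanin gs) (ins ++ gs.map Prod.fst) w)

theorem cenv_input (h : WF ins gs) {x : List Bool} (hx : x.length = ins.length) {i : ℕ}
    (hi : i < ins.length) : cenv ins gs outs x ins[i] = x.getD i false := by
  unfold cenv
  have h1 : (ins ++ gs.map Prod.fst)[i]? = some ins[i] := by
    rw [List.getElem?_append_left hi, List.getElem?_eq_getElem hi]
  unfold wireOf
  rw [pos_of_getElem? h h1, if_pos hi]
  exact Circuit.env_input _ (by omega)

theorem cenv_gate (h : WF ins gs) {x : List Bool} {k : ℕ}
    (hk : k < gs.length) :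
    cenv ins gs outs x gs[k].1 = (compile ins gs outs).env x
      (ins.length + (k * fanin gs + (fanin gs - 1))) := by
  unfold cenv
  have h1 : (ins ++ gs.map Prod.fst)[ins.length + k]? = some gs[k].1 := by
    rw [List.getElem?_append_right (by omega), Nat.add_sub_cancel_left,
      List.getElem?_eq_getElem (by rw [List.length_map]; exact hk), List.getElem_map]
  unfold wireOf
  rw [pos_of_getElem? h h1, if_neg (by omega), Nat.add_sub_cancel_left]
  congr 1
  have := fanin_pos (gs := gs)
  rw [Nat.add_mul, Nat.one_mul]
  omega

theorem env_step (h : WF ins gs) (ho : ∀ o ∈ outs, o ∈ gs.map Prod.fst) {x : List Bool}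
    (hx : x.length = ins.length) {k i : ℕ} (hk : k < gs.length) (hi : i < fanin gs) :
    (compile ins gs outs).env x (ins.length + (k * fanin gs + i)) =
      (mkGate gs[k].2.1 (ins.length + (k * fanin gs + i) - 1)
        (wireOf ins.length (fanin gs) (ins ++ gs.map Prod.fst) (gs[k].2.2.headD (0, 0)))
        (wireOf ins.length (fanin gs) (ins ++ gs.map Prod.fst)
          (gs[k].2.2.getD i (gs[k].2.2.headD (0, 0)))) i).evalW
        ((compile ins gs outs).env x) := by
  have h1 := Circuit.env_gate (compile_valid h ho) (x := x) hx
    (k := k * fanin gs + i) (index_lt hk hi)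
  rw [getElem_gates hk hi] at h1
  exact h1

theorem compile_sat (h : WF ins gs) (ho : ∀ o ∈ outs, o ∈ gs.map Prod.fst) {x : List Bool}
    (hx : x.length = ins.length) : ∀ g ∈ gs, GSat (cenv ins gs outs x) g := by
  intro g hg
  obtain ⟨k, hk, rfl⟩ := List.getElem_of_mem hg
  have hlen := length_le_fanin hg
  have hne := h.ne _ hg
  have hstep := fun i (hi : i < fanin gs) => env_step (i := i) h ho hx hk hi
  have hout := cenv_gate (outs := outs) (x := x) h hk
  have hpos := fanin_pos (gs := gs)
  have hprev : ∀ i, ins.length + (k * fanin gs + (i + 1)) - 1 =
      ins.length + (k * fanin gs + i) := fun i => by omega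
  unfold GSat
  generalize hkind : gs[k].2.1 = kind at hstep
  match kind with
  | some true =>
    dsimp only
    have key : ∀ i < fanin gs, (compile ins gs outs).env x
        (ins.length + (k * fanin gs + i)) = true ↔
        ∀ i' ≤ i, cenv ins gs outs x (gs[k].2.2.getD i' (gs[k].2.2.headD (0, 0))) = true := by
      intro i
      induction i with
      | zero =>
        intro hi
        rw [hstep 0 hi]
        simp only [mkGate, if_true, Gate.evalW, Nat.le_zero, forall_eq]
        have : gs[k].2.2.getD 0 (gs[k].2.2.headD (0, 0)) = gs[k].2.2.headD (0, 0) := by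
          cases gs[k].2.2 <;> rfl
        rw [this]
        unfold cenv
        simp
      | succ i ih =>
        intro hi
        rw [hstep (i + 1) hi]
        simp only [mkGate, Nat.add_one_ne_zero, if_false, Gate.evalW, Bool.and_eq_true]
        rw [hprev, ih (by omega)]
        constructor
        · rintro ⟨h1, h2⟩ i' hi'
          rcases Nat.lt_or_eq_of_le hi' with h3 | rfl
          · exact h1 i' (by omega)
          · exact h2
        · intro h1
          exact ⟨fun i' hi' => h1 i' (by omega), h1 (i + 1) le_rfl⟩
    rw [hout, key _ (by omega)]
    constructor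
    · intro h1 r hr
      obtain ⟨i, hi, rfl⟩ := List.getElem_of_mem hr
      have := h1 i (by omega)
      rwa [List.getD_eq_getElem _ _ hi] at this
    · intro h1 i' _
      exact h1 _ (getD_mem hne i')
  | some false =>
    dsimp only
    have key : ∀ i < fanin gs, (compile ins gs outs).env x
        (ins.length + (k * fanin gs + i)) = true ↔
        ∃ i' ≤ i, cenv ins gs outs x (gs[k].2.2.getD i' (gs[k].2.2.headD (0, 0))) = true := by
      intro i
      induction i with
      | zero =>
        intro hi
        rw [hstep 0 hi]
        simp only [mkGate, if_true, Gate.evalW, Nat.le_zero, exists_eq_left]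
        have : gs[k].2.2.getD 0 (gs[k].2.2.headD (0, 0)) = gs[k].2.2.headD (0, 0) := by
          cases gs[k].2.2 <;> rfl
        rw [this]
        unfold cenv
        simp
      | succ i ih =>
        intro hi
        rw [hstep (i + 1) hi]
        simp only [mkGate, Nat.add_one_ne_zero, if_false, Gate.evalW, Bool.or_eq_true]
        rw [hprev, ih (by omega)]
        constructor
        · rintro (⟨i', h1, h2⟩ | h1)
          · exact ⟨i', by omega, h2⟩
          · exact ⟨i + 1, le_rfl, h1⟩
        · rintro ⟨i', h1, h2⟩
          rcases Nat.lt_or_eq_of_le h1 with h3 | rfl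
          · exact Or.inl ⟨i', by omega, h2⟩
          · exact Or.inr h2
    rw [hout, key _ (by omega)]
    constructor
    · rintro ⟨i', _, h1⟩
      exact ⟨_, getD_mem hne i', h1⟩
    · rintro ⟨r, hr, h1⟩
      obtain ⟨i, hi, rfl⟩ := List.getElem_of_mem hr
      refine ⟨i, by omega, ?_⟩
      rwa [List.getD_eq_getElem _ _ hi]
  | none =>
    dsimp only
    intro r hr
    have key : ∀ i < fanin gs, (compile ins gs outs).env x
        (ins.length + (k * fanin gs + i)) = !cenv ins gs outs x r := by
      intro i
      induction i with
      | zero =>
        intro hi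
        rw [hstep 0 hi]
        simp only [mkGate, if_true, Gate.evalW, hr, List.headD_cons]
        rfl
      | succ i ih =>
        intro hi
        rw [hstep (i + 1) hi]
        simp only [mkGate, Nat.add_one_ne_zero, if_false, Gate.evalW]
        rw [hprev, ih (by omega), Bool.and_self]
    rw [hout, key _ (by omega)]

theorem compile_out (x : List Bool) :
    (compile ins gs outs).out x = outs.map (cenv ins gs outs x) := by
  unfold Circuit.out cenv
  change (outs.map _).map _ = _
  rw [List.map_map]
  rfl

/-- the number of NOT gates does not increase -/
theorem compile_numNot :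
    (compile ins gs outs).numNot ≤ gs.countP fun g => g.2.1 = none := by
  have hpos := fanin_pos (gs := gs)
  set K := fanin gs with hK
  set names := ins ++ gs.map Prod.fst with hnames
  have key : ∀ L ≤ gs.length, ((List.range (L * K)).map
      (cgate ins.length K names gs)).countP (fun g => match g with
        | .not _ => true
        | _ => false) ≤ (gs.take L).countP fun g => g.2.1 = none := by
    intro L
    induction L with
    | zero => intro _; simp
    | succ L ih =>
      intro hL
      have hL' : L < gs.length := hL
      have h1 : List.range ((L + 1) * K) = List.range (L * K) ++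
          (List.range K).map (fun i => L * K + i) := by
        rw [Nat.add_mul, Nat.one_mul, List.range_add]
      rw [h1, List.map_append, List.countP_append, List.take_add_one,
        List.countP_append, List.getElem?_eq_getElem hL', Option.toList_some,
        List.countP_singleton]
      refine Nat.add_le_add (ih (by omega)) ?_
      rw [List.map_map]
      have h2 : ∀ i ∈ List.range K, (cgate ins.length K names gs ∘ fun i => L * K + i) i =
          mkGate gs[L].2.1 (ins.length + (L * K + i) - 1) (wireOf ins.length K names
            (gs[L].2.2.headD (0, 0))) (wireOf ins.length K names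
            (gs[L].2.2.getD i (gs[L].2.2.headD (0, 0)))) i := by
        intro i hi
        rw [List.mem_range] at hi
        exact cgate_eq hL' hi names ins.length
      rw [List.map_congr_left h2]
      obtain ⟨K', hK'⟩ : ∃ K', K = K' + 1 := ⟨K - 1, by omega⟩
      generalize hkind : gs[L].2.1 = kind
      match kind with
      | some b =>
        rw [List.countP_eq_zero.2]
        · exact Nat.zero_le _
        · intro g hg
          obtain ⟨i, _, rfl⟩ := List.mem_map.1 hg
          cases b <;> simp [mkGate]
      | none =>
        rw [if_pos (by simp), hK', List.range_succ_eq_map, List.map_cons, List.countP_cons,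
          List.countP_eq_zero.2]
        · simp only [Nat.zero_add]
          split_ifs <;> omega
        · intro g hg
          rw [List.map_map] at hg
          obtain ⟨i, _, rfl⟩ := List.mem_map.1 hg
          simp [mkGate]
  have := key gs.length le_rfl
  rw [List.take_length] at this
  exact this

end

end Pool.Agent.MPa0a715
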