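import Pool.Agent.Lib.MP_a0a715_lc.Wires

/-!
# The two copies of the given circuit and the minimum of their outputs
-/

namespace Pool.Agent.MPa0a715

/-! ### comparing lists of bits -/

theorem val_inj : ∀ (A B : List Bool), A.length = B.length → val A = val B → A = B := by
  intro A
  induction A with
  | nil => intro B h _; exact (List.length_eq_zero_iff.1 h.symm).symm
  | cons a A ih =>
    intro B h h'
    cases B with
    | nil => exact absurd h (by simp)
    | cons b B =>
      rw [val, val] at h'
      have ha := Bool.toNat_le a
      have hb := Bool.toNat_le b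
      have h1 : a.toNat = b.toNat := by omega
      have h2 : val A = val B := by omega
      have h3 : a = b := by
        revert h1
        cases a <;> cases b <;> simp
      rw [h3, ih B (by simpa using h) h2]

theorem val_lt_iff : ∀ (A B : List Bool), A.length = B.length →
    (val A < val B ↔ ∃ r < A.length, A.getD r false = false ∧ B.getD r false = true ∧
      ∀ s < A.length, r < s → A.getD s false = B.getD s false) := by
  intro A
  induction A with
  | nil =>
    intro B h
    have : B = [] := List.length_eq_zero_iff.1 h.symm
    subst this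
    simp
  | cons a A ih =>
    intro B h
    cases B with
    | nil => exact absurd h (by simp)
    | cons b B =>
      have hl : A.length = B.length := by simpa using h
      have key : val (a :: A) < val (b :: B) ↔ val A < val B ∨ (A = B ∧ a = false ∧ b = true) := by
        rw [val, val]
        constructor
        · intro h1
          by_cases h2 : val A < val B
          · exact Or.inl h2
          · right
            have ha := Bool.toNat_le a
            have hb := Bool.toNat_le b
            have h3 : val A = val B := by omega
            refine ⟨val_inj A B hl h3, ?_⟩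
            rw [h3] at h1
            revert h1
            cases a <;> cases b <;> simp
        · rintro (h1 | ⟨h1, h2, h3⟩)
          · have ha := Bool.toNat_le a
            have hb := Bool.toNat_le b
            omega
          · rw [h1, h2, h3]
            simp
      rw [key, ih B hl]
      constructor
      · rintro (⟨r, hr, h1, h2, h3⟩ | ⟨h1, h2, h3⟩)
        · refine ⟨r + 1, by simpa using hr, h1, h2, ?_⟩
          intro s hs hrs
          obtain ⟨s', rfl⟩ : ∃ s', s = s' + 1 := ⟨s - 1, by omega⟩
          exact h3 s' (by simpa using hs) (by omega)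
        · refine ⟨0, by simp, h2, h3, ?_⟩
          intro s hs hrs
          obtain ⟨s', rfl⟩ : ∃ s', s = s' + 1 := ⟨s - 1, by omega⟩
          rw [h1]
          rfl
      · rintro ⟨r, hr, h1, h2, h3⟩
        cases r with
        | zero =>
          right
          refine ⟨?_, h1, h2⟩
          refine ext_getD hl fun i hi => ?_
          exact h3 (i + 1) (by simpa using hi) (by omega)
        | succ r =>
          left
          refine ⟨r, by simpa using hr, h1, h2, ?_⟩
          intro s hs hrs
          exact h3 (s + 1) (by simpa using hs) (by omega)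

section
variable {C : Circuit} {m : ℕ} {E : Name → Bool}

theorem dr_gate (hE : ∀ g ∈ toG 1 (blocks m C.gates C.outs), GSat E g)
    {t : ℕ} (ht : t < 4 * (m + 1 + C.gates.length)) : GSat E ((38, t), drf m C.gates t) :=
  sat_blocks hE (i := 37) rfl t ht

/-- one of the two copies computes the given circuit -/
theorem dr_copy (hC : C.Valid) (hn : C.n = m + 1)
    (hE : ∀ g ∈ toG 1 (blocks m C.gates C.outs), GSat E g) {c : ℕ} (hc : c = 0 ∨ c = 2)
    {X : List Bool} (hX : X.length = m + 1)
    (h1 : ∀ i ≤ m, E (38, 4 * i + c) = X.getD i false)
    (h2 : ∀ i ≤ m, E (38, 4 * i + (c + 1)) = !X.getD i false) (w : ℕ)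
    (hw : w < m + 1 + C.gates.length) :
    E (38, 4 * w + c) = C.env X w ∧ E (38, 4 * w + (c + 1)) = !C.env X w := by
  induction w using Nat.strong_induction_on with
  | _ w ih =>
    by_cases hwm : w < m + 1
    · rw [Circuit.env_input C (by omega)]
      exact ⟨h1 w (by omega), h2 w (by omega)⟩
    · obtain ⟨k, rfl⟩ : ∃ k, w = m + 1 + k := ⟨w - (m + 1), by omega⟩
      have hk : k < C.gates.length := by omega
      have henv := Circuit.env_gate hC (x := X) (by rw [hX, hn]) hk
      rw [hn] at henv
      have hrefs := hC.1 k hk
      rw [hn] at hrefs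
      have g0 := dr_gate (t := 4 * (m + 1 + k) + c) hE (by omega)
      have g1 := dr_gate (t := 4 * (m + 1 + k) + (c + 1)) hE (by omega)
      have e1 : (4 * (m + 1 + k) + c) / 4 = m + 1 + k := by omega
      have e2 : (4 * (m + 1 + k) + (c + 1)) / 4 = m + 1 + k := by omega
      have e3 : (4 * (m + 1 + k) + c) % 4 = c := by omega
      have e4 : (4 * (m + 1 + k) + (c + 1)) % 4 = c + 1 := by omega
      have e5 : (4 * (m + 1 + k) + c) % 2 = 0 := by omega
      have e6 : (4 * (m + 1 + k) + (c + 1)) % 2 = 1 := by omega
      unfold drf at g0 g1
      rw [e1, if_neg (by omega), Nat.add_sub_cancel_left, List.getElem?_eq_getElem hk] at g0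
      rw [e2, if_neg (by omega), Nat.add_sub_cancel_left, List.getElem?_eq_getElem hk] at g1
      rw [henv]
      generalize C.gates[k] = g at g0 g1 hrefs
      cases g with
      | and i j =>
        have hi := hrefs i (by simp [Gate.refs])
        have hj := hrefs j (by simp [Gate.refs])
        obtain ⟨i1, i2⟩ := ih i hi (by omega)
        obtain ⟨j1, j2⟩ := ih j hj (by omega)
        dsimp only at g0 g1
        rw [e5, e3, decide_eq_true rfl] at g0
        rw [e6, e4, decide_eq_false (by omega)] at g1
        have g0' := sat_and g0
        have g1' := sat_or g1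
        rw [List.forall_mem_cons, List.forall_mem_cons, forall_nil, and_true, i1, j1] at g0'
        rw [exists_cons, exists_cons, exists_nil, or_false, i2, j2] at g1'
        simp only [Gate.evalW]
        revert g0' g1'
        cases C.env X i <;> cases C.env X j <;> simp <;> intro h h' <;> exact ⟨h, h'⟩
      | or i j =>
        have hi := hrefs i (by simp [Gate.refs])
        have hj := hrefs j (by simp [Gate.refs])
        obtain ⟨i1, i2⟩ := ih i hi (by omega)
        obtain ⟨j1, j2⟩ := ih j hj (by omega)
        dsimp only at g0 g1
        rw [e5, e3, decide_eq_false (by omega)] at g0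
        rw [e6, e4, decide_eq_true rfl] at g1
        have g0' := sat_or g0
        have g1' := sat_and g1
        rw [exists_cons, exists_cons, exists_nil, or_false, i1, j1] at g0'
        rw [List.forall_mem_cons, List.forall_mem_cons, forall_nil, and_true, i2, j2] at g1'
        simp only [Gate.evalW]
        revert g0' g1'
        cases C.env X i <;> cases C.env X j <;> simp <;> intro h h' <;> exact ⟨h, h'⟩
      | not i =>
        have hi := hrefs i (by simp [Gate.refs])
        obtain ⟨i1, i2⟩ := ih i hi (by omega)
        dsimp only at g0 g1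
        rw [if_pos e5, e3] at g0
        rw [if_neg (by omega), e4, Nat.add_sub_cancel] at g1
        have g0' := sat_and g0
        have g1' := sat_and g1
        rw [List.forall_mem_cons, forall_nil, and_true, i2] at g0'
        rw [List.forall_mem_cons, forall_nil, and_true, i1] at g1'
        simp only [Gate.evalW]
        revert g0' g1'
        cases C.env X i <;> simp <;> intro h h' <;> exact ⟨h, h'⟩

theorem out_getD (X : List Bool) {r : ℕ} (hr : r < C.outs.length) :
    (C.out X).getD r false = C.env X (C.outs.getD r 0) := by
  unfold Circuit.out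
  rw [List.getD_eq_getElem _ _ (by rw [List.length_map]; exact hr), List.getElem_map,
    List.getD_eq_getElem _ _ hr]

theorem length_out (X : List Bool) : (C.out X).length = C.outs.length := by
  unfold Circuit.out
  rw [List.length_map]

/-- the minimum block -/
theorem min_block (hC : C.Valid) (hn : C.n = m + 1)
    (hE : ∀ g ∈ toG 1 (blocks m C.gates C.outs), GSat E g)
    {X0 X1 : List Bool} (hX0 : X0.length = m + 1) (hX1 : X1.length = m + 1)
    (h0 : ∀ i ≤ m, E (38, 4 * i) = X0.getD i false)
    (h1 : ∀ i ≤ m, E (38, 4 * i + 1) = !X0.getD i false)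
    (h2 : ∀ i ≤ m, E (38, 4 * i + 2) = X1.getD i false)
    (h3 : ∀ i ≤ m, E (38, 4 * i + 3) = !X1.getD i false) :
    (ws 51 (List.range C.outs.length)).map E =
      if val (C.out X0) < val (C.out X1) then C.out X0 else C.out X1 := by
  set A := C.out X0 with hA
  set B := C.out X1 with hB
  have hAl : A.length = C.outs.length := length_out X0
  have hBl : B.length = C.outs.length := length_out X1
  have hw : ∀ r < C.outs.length, C.outs.getD r 0 < m + 1 + C.gates.length := by
    intro r hr
    rw [List.getD_eq_getElem _ _ hr]
    have := (hC.2 _ (List.getElem_mem hr)).2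
    rwa [hn] at this
  have c0 : ∀ r < C.outs.length, E (38, 4 * C.outs.getD r 0) = A.getD r false := by
    intro r hr
    have := (dr_copy hC hn hE (c := 0) (Or.inl rfl) hX0 h0 h1 _ (hw r hr)).1
    rw [hA, out_getD X0 hr]
    exact this
  have c1 : ∀ r < C.outs.length, E (38, 4 * C.outs.getD r 0 + 1) = !A.getD r false := by
    intro r hr
    have := (dr_copy hC hn hE (c := 0) (Or.inl rfl) hX0 h0 h1 _ (hw r hr)).2
    rw [hA, out_getD X0 hr]
    exact this
  have c2 : ∀ r < C.outs.length, E (38, 4 * C.outs.getD r 0 + 2) = B.getD r false := by
    intro r hr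
    have := (dr_copy hC hn hE (c := 2) (Or.inr rfl) hX1 h2 h3 _ (hw r hr)).1
    rw [hB, out_getD X1 hr]
    exact this
  have c3 : ∀ r < C.outs.length, E (38, 4 * C.outs.getD r 0 + 3) = !B.getD r false := by
    intro r hr
    have := (dr_copy hC hn hE (c := 2) (Or.inr rfl) hX1 h2 h3 _ (hw r hr)).2
    rw [hB, out_getD X1 hr]
    exact this
  have e43 : ∀ r < C.outs.length, (E (43, r) = true ↔ A.getD r false = B.getD r false) := by
    intro r hr
    have h41 := sat_and (sat_blocks hE (i := 40) rfl r hr)
    have h42 := sat_and (sat_blocks hE (i := 41) rfl r hr)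
    have h43 := sat_or (sat_blocks hE (i := 42) rfl r hr)
    rw [List.forall_mem_cons, List.forall_mem_cons, forall_nil, and_true, c0 r hr,
      c2 r hr] at h41
    rw [List.forall_mem_cons, List.forall_mem_cons, forall_nil, and_true, c1 r hr,
      c3 r hr] at h42
    rw [exists_cons, exists_cons, exists_nil, or_false, show (41, r) = (1 + 40, r) from rfl,
      h41, show (42, r) = (1 + 41, r) from rfl, h42] at h43
    rw [show (43, r) = (1 + 42, r) from rfl, h43]
    cases A.getD r false <;> cases B.getD r false <;> simp
  have eeq : ∀ r, (∀ j ∈ (List.range C.outs.length).filter (fun s => decide (r < s)),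
      E (43, j) = true) ↔ ∀ s < C.outs.length, r < s → A.getD s false = B.getD s false := by
    intro r
    constructor
    · intro h s hs hrs
      exact (e43 s hs).1 (h s (List.mem_filter.2 ⟨List.mem_range.2 hs, decide_eq_true hrs⟩))
    · intro h j hj
      rw [List.mem_filter, List.mem_range, decide_eq_true_eq] at hj
      exact (e43 j hj.1).2 (h j hj.1 hj.2)
  have e45 : E (45, 0) = true ↔ val A < val B := by
    have h45 := sat_or (sat_blocks hE (i := 44) rfl 0 Nat.one_pos)
    rw [exists_cons, exists_ws, w39 hE] at h45
    rw [show (45, 0) = (1 + 44, 0) from rfl, h45, val_lt_iff A B (by rw [hAl, hBl]), hAl]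
    constructor
    · rintro (h | ⟨r, hr, h⟩)
      · exact absurd h Bool.false_ne_true
      · rw [List.mem_range] at hr
        have h44 := (sat_and (sat_blocks hE (i := 43) rfl r hr)).1 h
        rw [List.forall_mem_cons, List.forall_mem_cons, forall_ws, c1 r hr, c2 r hr, eeq] at h44
        refine ⟨r, hr, ?_, h44.2.1, h44.2.2⟩
        simpa using h44.1
    · rintro ⟨r, hr, h4, h5, h6⟩
      right
      refine ⟨r, List.mem_range.2 hr, ?_⟩
      refine (sat_and (sat_blocks hE (i := 43) rfl r hr)).2 ?_
      rw [List.forall_mem_cons, List.forall_mem_cons, forall_ws, c1 r hr, c2 r hr, eeq]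
      exact ⟨by rw [h4]; rfl, h5, h6⟩
  have e48 : E (48, 0) = true ↔ ¬ val A < val B := by
    have h47 := sat_and (sat_blocks hE (i := 46) rfl 0 Nat.one_pos)
    rw [List.forall_mem_cons, forall_ws, w40 hE] at h47
    have h48 := sat_or (sat_blocks hE (i := 47) rfl 0 Nat.one_pos)
    rw [exists_cons, exists_ws] at h48
    rw [show (48, 0) = (1 + 47, 0) from rfl, h48, show (47, 0) = (1 + 46, 0) from rfl, h47]
    have key : ¬ val A < val B ↔ A = B ∨ val B < val A := by
      constructor
      · intro h
        rcases Nat.lt_or_eq_of_le (Nat.le_of_not_lt h) with h4 | h4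
        · exact Or.inr h4
        · exact Or.inl (val_inj A B (by rw [hAl, hBl]) h4.symm)
      · rintro (h | h)
        · rw [h]
          exact lt_irrefl _
        · omega
    rw [key, val_lt_iff B A (by rw [hAl, hBl]), hBl]
    constructor
    · rintro (⟨_, h⟩ | ⟨r, hr, h⟩)
      · left
        refine ext_getD (by rw [hAl, hBl]) fun i hi => ?_
        rw [hAl] at hi
        exact (e43 i hi).1 (h i (List.mem_range.2 hi))
      · right
        rw [List.mem_range] at hr
        have h46 := (sat_and (sat_blocks hE (i := 45) rfl r hr)).1 h
        rw [List.forall_mem_cons, List.forall_mem_cons, forall_ws, c0 r hr, c3 r hr, eeq] at h46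
        refine ⟨r, hr, ?_, h46.1, fun s hs hrs => (h46.2.2 s hs hrs).symm⟩
        simpa using h46.2.1
    · rintro (h | ⟨r, hr, h4, h5, h6⟩)
      · left
        refine ⟨rfl, fun j hj => ?_⟩
        rw [List.mem_range] at hj
        exact (e43 j hj).2 (by rw [h])
      · right
        refine ⟨r, List.mem_range.2 hr, ?_⟩
        refine (sat_and (sat_blocks hE (i := 45) rfl r hr)).2 ?_
        rw [List.forall_mem_cons, List.forall_mem_cons, forall_ws, c0 r hr, c3 r hr, eeq]
        exact ⟨h5, by rw [h4]; rfl, fun s hs hrs => (h6 s hs hrs).symm⟩
  have hlen : ((ws 51 (List.range C.outs.length)).map E).length = C.outs.length := by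
    unfold ws
    simp
  refine ext_getD ?_ fun r hr => ?_
  · rw [hlen]
    split_ifs
    · rw [hAl]
    · rw [hBl]
  · rw [hlen] at hr
    have h49 := sat_and (sat_blocks hE (i := 48) rfl r hr)
    have h50 := sat_and (sat_blocks hE (i := 49) rfl r hr)
    have h51 := sat_or (sat_blocks hE (i := 50) rfl r hr)
    rw [List.forall_mem_cons, List.forall_mem_cons, forall_nil, and_true, c0 r hr, e45] at h49
    rw [List.forall_mem_cons, List.forall_mem_cons, forall_nil, and_true, c2 r hr, e48] at h50
    rw [exists_cons, exists_cons, exists_nil, or_false, show (49, r) = (1 + 48, r) from rfl,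
      h49, show (50, r) = (1 + 49, r) from rfl, h50] at h51
    have h52 : ((ws 51 (List.range C.outs.length)).map E).getD r false = E (51, r) := by
      unfold ws
      rw [List.map_map, List.getD_eq_getElem _ _ (by simpa using hr), List.getElem_map,
        List.getElem_range]
      rfl
    rw [h52]
    rw [Bool.eq_iff_iff, show (51, r) = (1 + 50, r) from rfl, h51]
    split_ifs with h
    · simp [h]
    · simp [h]

end

end Pool.Agent.MPa0a715
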