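import Pool.Agent.Lib.MP_a0a715_lc.Blocks

/-!
# The circuit with two NOT gates
-/

namespace Pool.Agent.MPa0a715

open Pool.Agent.PolyTime

/-- a block with one gate -/
def one (k : Option Bool) (rs : List Name) : Blk := (1, fun _ => (k, rs))

/-- membership in the `u`-th set of the path -/
def inS (u i : ℕ) : Bool := decide (u / 3 ≤ i) && decide (i < u - u / 3)

/-- wires of block `b` -/
def ws (b : ℕ) (l : List ℕ) : List Name := l.map fun i => (b, i)

/-- numbers of the sets of the path of level given by the residue `c` -/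
def lev (m c : ℕ) : List ℕ := (List.range (3 * m)).filter fun t => decide ((t + 1) % 3 = c)

/-- kind and wires read by the gates computing the two copies of the given circuit and their
negations -/
def drf (m : ℕ) (G : List Gate) (t : ℕ) : Option Bool × List Name :=
  if t / 4 < m + 1 then
    if t % 4 = 0 then (some true, [(0, 2 * m + 1 + t / 4), (37, t / 4)])
    else if t % 4 = 1 then (some true, [(0, m + t / 4)])
    else if t % 4 = 2 then (some true, [(0, 2 * m + 1 + t / 4)])
    else (some true, [(0, m + t / 4), (37, t / 4)])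
  else
    match G[t / 4 - (m + 1)]? with
    | none => (some true, [(0, 0)])
    | some (.and i j) => (some (decide (t % 2 = 0)), [(38, 4 * i + t % 4), (38, 4 * j + t % 4)])
    | some (.or i j) => (some (decide (t % 2 = 1)), [(38, 4 * i + t % 4), (38, 4 * j + t % 4)])
    | some (.not i) => (some true, [(38, 4 * i + (if t % 2 = 0 then t % 4 + 1 else t % 4 - 1))])

/-- the blocks of the circuit -/
def blocks (m : ℕ) (G : List Gate) (O : List ℕ) : List Blk :=
  [ (m + 1, fun i => (some false, [(0, m + i), (0, 2 * m + 1 + i)])),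
    (m + 1, fun i => (some true, [(0, m + i), (0, 2 * m + 1 + i)])),
    one (some true) (ws 1 (List.range (m + 1))),
    one (some false) (ws 2 (List.range (m + 1))),
    (m + 1, fun i => (some false, ws 2 ((List.range (m + 1)).filter fun j => decide (j ≠ i)))),
    (m + 1, fun i => (some true, [(2, i), (5, i)])),
    one (some false) (ws 6 (List.range (m + 1))),
    one (some false) (ws 0 (List.range m)),
    (3 * m, fun t => (some true, ws 0 ((List.range (3 * m + 2)).filter fun i => inS (t + 1) i))),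
    (3 * m, fun t => (some false, ws 0 ((List.range (3 * m + 2)).filter fun i =>
      !inS (t + 1) i))),
    (3 * m, fun t => (some true, [(9, t), (10, t)])),
    one (some true) [(3, 0), (4, 0)],
    one (some false) ((12, 0) :: ws 9 (lev m 2)),
    one (some false) ((3, 0) :: ws 9 (lev m 1)),
    one (some false) ((14, 0) :: ws 9 (lev m 0)),
    one none [(14, 0)],
    one (some true) [(15, 0), (16, 0)],
    one (some false) [(17, 0), (13, 0)],
    one none [(18, 0)],
    one (some true) [(16, 0), (19, 0)],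
    one (some true) [(14, 0), (19, 0)],
    one (some false) (ws 0 (List.range (3 * m + 2))),
    one (some true) [(20, 0), (22, 0)],
    one (some false) (ws 11 (lev m 0)),
    one (some true) [(17, 0), (24, 0)],
    one (some true) [(3, 0), (8, 0)],
    one (some false) ((26, 0) :: ws 11 (lev m 1)),
    one (some true) [(21, 0), (27, 0)],
    one (some true) [(4, 0), (8, 0)],
    one (some false) [(7, 0), (29, 0)],
    one (some true) [(3, 0), (30, 0)],
    one (some false) ((31, 0) :: ws 11 (lev m 2)),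
    one (some true) [(13, 0), (32, 0)],
    one (some false) [(23, 0), (25, 0), (28, 0), (33, 0)],
    (3 * m + 2, fun i => (some true, [(34, 0), (0, i)])),
    (3 * m, fun t => (some true, [(if (t + 1) % 3 = 1 then 21 else if (t + 1) % 3 = 2 then 13
      else 17, 0), (9, t)])),
    (m + 1, fun i => (some false, [(19, 0), (5, i)])),
    (4 * (m + 1 + G.length), drf m G),
    one (some true) [(14, 0), (16, 0)],
    one (some false) [(14, 0), (16, 0)],
    (O.length, fun r => (some true, [(38, 4 * O.getD r 0), (38, 4 * O.getD r 0 + 2)])),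
    (O.length, fun r => (some true, [(38, 4 * O.getD r 0 + 1), (38, 4 * O.getD r 0 + 3)])),
    (O.length, fun r => (some false, [(41, r), (42, r)])),
    (O.length, fun r => (some true, (38, 4 * O.getD r 0 + 1) :: (38, 4 * O.getD r 0 + 2) ::
      ws 43 ((List.range O.length).filter fun s => decide (r < s)))),
    one (some false) ((39, 0) :: ws 44 (List.range O.length)),
    (O.length, fun r => (some true, (38, 4 * O.getD r 0) :: (38, 4 * O.getD r 0 + 3) ::
      ws 43 ((List.range O.length).filter fun s => decide (r < s)))),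
    one (some true) ((40, 0) :: ws 43 (List.range O.length)),
    one (some false) ((47, 0) :: ws 46 (List.range O.length)),
    (O.length, fun r => (some true, [(45, 0), (38, 4 * O.getD r 0)])),
    (O.length, fun r => (some true, [(48, 0), (38, 4 * O.getD r 0 + 2)])),
    (O.length, fun r => (some false, [(49, r), (50, r)])) ]

/-- the output wires -/
def outNames (m : ℕ) (M : ℕ) : List Name :=
  (4, 0) :: (ws 51 (List.range M) ++ ((List.range (3 * m)).map (fun j => (36, 3 * m - 1 - j)) ++
    ((20, 0) :: ws 35 (List.range (3 * m + 2)))))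

/-- the circuit -/
def reduce (m : ℕ) (G : List Gate) (O : List ℕ) : Circuit :=
  compile (inNames (3 * m + 2)) (toG 1 (blocks m G O)) (outNames m O.length)

theorem mem_ws {b : ℕ} {l : List ℕ} {r : Name} : r ∈ ws b l ↔ r.1 = b ∧ r.2 ∈ l := by
  unfold ws
  rw [List.mem_map]
  constructor
  · rintro ⟨i, hi, rfl⟩
    exact ⟨rfl, hi⟩
  · rintro ⟨h1, h2⟩
    exact ⟨r.2, h2, by rw [← h1]⟩

theorem ws_ne {b : ℕ} {l : List ℕ} {i : ℕ} (h : i ∈ l) : ws b l ≠ [] := by
  intro h'
  have : (b, i) ∈ ws b l := mem_ws.2 ⟨rfl, h⟩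
  rw [h'] at this
  exact List.not_mem_nil this

theorem mem_lev {m c t : ℕ} : t ∈ lev m c ↔ t < 3 * m ∧ (t + 1) % 3 = c := by
  unfold lev
  rw [List.mem_filter, List.mem_range, decide_eq_true_eq]

theorem inS_iff {u i : ℕ} : inS u i = true ↔ u / 3 ≤ i ∧ i < u - u / 3 := by
  unfold inS
  rw [Bool.and_eq_true, decide_eq_true_eq, decide_eq_true_eq]

section
variable {m : ℕ} {G : List Gate} {O : List ℕ}

theorem cnt0 : cnt (3 * m + 2) (blocks m G O) 0 = 3 * m + 2 := rfl
theorem cnt1 : cnt (3 * m + 2) (blocks m G O) 1 = m + 1 := rfl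
theorem cnt2 : cnt (3 * m + 2) (blocks m G O) 2 = m + 1 := rfl
theorem cnt3 : cnt (3 * m + 2) (blocks m G O) 3 = 1 := rfl
theorem cnt4 : cnt (3 * m + 2) (blocks m G O) 4 = 1 := rfl
theorem cnt5 : cnt (3 * m + 2) (blocks m G O) 5 = m + 1 := rfl
theorem cnt6 : cnt (3 * m + 2) (blocks m G O) 6 = m + 1 := rfl
theorem cnt7 : cnt (3 * m + 2) (blocks m G O) 7 = 1 := rfl
theorem cnt8 : cnt (3 * m + 2) (blocks m G O) 8 = 1 := rfl
theorem cnt9 : cnt (3 * m + 2) (blocks m G O) 9 = 3 * m := rfl
theorem cnt10 : cnt (3 * m + 2) (blocks m G O) 10 = 3 * m := rfl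
theorem cnt11 : cnt (3 * m + 2) (blocks m G O) 11 = 3 * m := rfl
theorem cnt12 : cnt (3 * m + 2) (blocks m G O) 12 = 1 := rfl
theorem cnt13 : cnt (3 * m + 2) (blocks m G O) 13 = 1 := rfl
theorem cnt14 : cnt (3 * m + 2) (blocks m G O) 14 = 1 := rfl
theorem cnt15 : cnt (3 * m + 2) (blocks m G O) 15 = 1 := rfl
theorem cnt16 : cnt (3 * m + 2) (blocks m G O) 16 = 1 := rfl
theorem cnt17 : cnt (3 * m + 2) (blocks m G O) 17 = 1 := rfl
theorem cnt18 : cnt (3 * m + 2) (blocks m G O) 18 = 1 := rfl
theorem cnt19 : cnt (3 * m + 2) (blocks m G O) 19 = 1 := rfl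
theorem cnt20 : cnt (3 * m + 2) (blocks m G O) 20 = 1 := rfl
theorem cnt21 : cnt (3 * m + 2) (blocks m G O) 21 = 1 := rfl
theorem cnt22 : cnt (3 * m + 2) (blocks m G O) 22 = 1 := rfl
theorem cnt23 : cnt (3 * m + 2) (blocks m G O) 23 = 1 := rfl
theorem cnt24 : cnt (3 * m + 2) (blocks m G O) 24 = 1 := rfl
theorem cnt25 : cnt (3 * m + 2) (blocks m G O) 25 = 1 := rfl
theorem cnt26 : cnt (3 * m + 2) (blocks m G O) 26 = 1 := rfl
theorem cnt27 : cnt (3 * m + 2) (blocks m G O) 27 = 1 := rfl
theorem cnt28 : cnt (3 * m + 2) (blocks m G O) 28 = 1 := rfl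
theorem cnt29 : cnt (3 * m + 2) (blocks m G O) 29 = 1 := rfl
theorem cnt30 : cnt (3 * m + 2) (blocks m G O) 30 = 1 := rfl
theorem cnt31 : cnt (3 * m + 2) (blocks m G O) 31 = 1 := rfl
theorem cnt32 : cnt (3 * m + 2) (blocks m G O) 32 = 1 := rfl
theorem cnt33 : cnt (3 * m + 2) (blocks m G O) 33 = 1 := rfl
theorem cnt34 : cnt (3 * m + 2) (blocks m G O) 34 = 1 := rfl
theorem cnt35 : cnt (3 * m + 2) (blocks m G O) 35 = 3 * m + 2 := rfl
theorem cnt36 : cnt (3 * m + 2) (blocks m G O) 36 = 3 * m := rfl
theorem cnt37 : cnt (3 * m + 2) (blocks m G O) 37 = m + 1 := rfl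
theorem cnt38 : cnt (3 * m + 2) (blocks m G O) 38 = 4 * (m + 1 + G.length) := rfl
theorem cnt39 : cnt (3 * m + 2) (blocks m G O) 39 = 1 := rfl
theorem cnt40 : cnt (3 * m + 2) (blocks m G O) 40 = 1 := rfl
theorem cnt41 : cnt (3 * m + 2) (blocks m G O) 41 = O.length := rfl
theorem cnt42 : cnt (3 * m + 2) (blocks m G O) 42 = O.length := rfl
theorem cnt43 : cnt (3 * m + 2) (blocks m G O) 43 = O.length := rfl
theorem cnt44 : cnt (3 * m + 2) (blocks m G O) 44 = O.length := rfl
theorem cnt45 : cnt (3 * m + 2) (blocks m G O) 45 = 1 := rfl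
theorem cnt46 : cnt (3 * m + 2) (blocks m G O) 46 = O.length := rfl
theorem cnt47 : cnt (3 * m + 2) (blocks m G O) 47 = 1 := rfl
theorem cnt48 : cnt (3 * m + 2) (blocks m G O) 48 = 1 := rfl
theorem cnt49 : cnt (3 * m + 2) (blocks m G O) 49 = O.length := rfl
theorem cnt50 : cnt (3 * m + 2) (blocks m G O) 50 = O.length := rfl
theorem cnt51 : cnt (3 * m + 2) (blocks m G O) 51 = O.length := rfl

theorem forall_ws {b : ℕ} {l : List ℕ} {p : Name → Prop} :
    (∀ r ∈ ws b l, p r) ↔ ∀ j ∈ l, p (b, j) := by
  constructor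
  · intro h j hj
    exact h _ (mem_ws.2 ⟨rfl, hj⟩)
  · intro h r hr
    obtain ⟨h1, h2⟩ := mem_ws.1 hr
    have := h _ h2
    rwa [← h1] at this

theorem blocks_ok (hm : 0 < m)
    (hG : ∀ (k : ℕ) (h : k < G.length), ∀ r ∈ G[k].refs, r < m + 1 + k)
    (hO : ∀ o ∈ O, m + 1 ≤ o ∧ o < m + 1 + G.length) :
    AllB (BlkOK (3 * m + 2) (blocks m G O)) 1 (blocks m G O) := by
  have hO' : ∀ r < O.length, O.getD r 0 < m + 1 + G.length := by
    intro r hr
    rw [List.getD_eq_getElem _ _ hr]
    exact (hO _ (List.getElem_mem hr)).2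
  -- the block of the two copies
  have hdr : BlkOK (3 * m + 2) (blocks m G O) 38 (4 * (m + 1 + G.length), drf m G) := by
    intro t ht
    change t < 4 * (m + 1 + G.length) at ht
    change (drf m G t).2 ≠ [] ∧ ∀ r ∈ (drf m G t).2, _
    unfold drf
    by_cases h1 : t / 4 < m + 1
    · rw [if_pos h1]
      split_ifs with h2 h3 h4
      all_goals
        refine ⟨List.cons_ne_nil _ _, ?_⟩
        simp only [List.forall_mem_cons, List.not_mem_nil, false_imp_iff, implies_true, and_true,
          cnt0, cnt37, nlt]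
        omega
    · rw [if_neg h1]
      have hk : t / 4 - (m + 1) < G.length := by omega
      have hr := hG _ hk
      rw [List.getElem?_eq_getElem hk]
      generalize G[t / 4 - (m + 1)] = g at hr
      cases g with
      | and i j =>
        have h5 := hr i (by simp [Gate.refs])
        have h6 := hr j (by simp [Gate.refs])
        refine ⟨List.cons_ne_nil _ _, ?_⟩
        simp only [List.forall_mem_cons, List.not_mem_nil, false_imp_iff, implies_true, and_true,
          cnt38, nlt, true_and, lt_irrefl, false_or]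
        omega
      | or i j =>
        have h5 := hr i (by simp [Gate.refs])
        have h6 := hr j (by simp [Gate.refs])
        refine ⟨List.cons_ne_nil _ _, ?_⟩
        simp only [List.forall_mem_cons, List.not_mem_nil, false_imp_iff, implies_true, and_true,
          cnt38, nlt, true_and, lt_irrefl, false_or]
        omega
      | not i =>
        have h5 := hr i (by simp [Gate.refs])
        refine ⟨List.cons_ne_nil _ _, ?_⟩
        simp only [List.forall_mem_cons, List.not_mem_nil, false_imp_iff, implies_true, and_true,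
          cnt38, nlt, true_and, lt_irrefl, false_or]
        split_ifs <;> omega
  have h36 : BlkOK (3 * m + 2) (blocks m G O) 36 (3 * m, fun t => (some true,
      [(if (t + 1) % 3 = 1 then 21 else if (t + 1) % 3 = 2 then 13 else 17, 0), (9, t)])) := by
    intro t ht
    change t < 3 * m at ht
    refine ⟨List.cons_ne_nil _ _, ?_⟩
    dsimp only
    split_ifs
    all_goals
      simp only [List.forall_mem_cons, List.not_mem_nil, false_imp_iff, implies_true, and_true,
        cnt9, cnt13, cnt17, cnt21, nlt]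
      omega
  have h2m : 2 ∈ lev m 0 := mem_lev.2 ⟨by omega, rfl⟩
  refine ⟨?_, ?_, ?_, ?_, ?_, ?_, ?_, ?_, ?_, ?_, ?_, ?_, ?_, ?_, ?_, ?_, ?_, ?_, ?_, ?_,
    ?_, ?_, ?_, ?_, ?_, ?_, ?_, ?_, ?_, ?_, ?_, ?_, ?_, ?_, ?_, h36, ?_, hdr, ?_, ?_,
    ?_, ?_, ?_, ?_, ?_, ?_, ?_, ?_, ?_, ?_, ?_, trivial⟩
  all_goals
    intro i hi
    have hi' := hi
    simp only [one] at hi'
    first
    | have hO'' := hO' i hi
    | skip
    refine ⟨?_, ?_⟩
    · first
      | exact List.cons_ne_nil _ _
      | exact ws_ne (List.mem_range.2 (Nat.succ_pos m))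
      | exact ws_ne (List.mem_range.2 hm)
      | exact ws_ne h2m
      | exact ws_ne (List.mem_range.2 (Nat.succ_pos (3 * m + 1)))
      | exact ws_ne (i := if i = 0 then 1 else 0) (List.mem_filter.2
          ⟨List.mem_range.2 (by split_ifs <;> omega), decide_eq_true (by split_ifs <;> omega)⟩)
      | exact ws_ne (i := (i + 1) / 3) (List.mem_filter.2
          ⟨List.mem_range.2 (by omega), inS_iff.2 (by omega)⟩)
      | exact ws_ne (i := 3 * m + 1) (List.mem_filter.2
          ⟨List.mem_range.2 (by omega), by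
            rw [Bool.not_eq_true', ← Bool.not_eq_true, inS_iff]; omega⟩)
    · simp only [one, List.forall_mem_cons, List.not_mem_nil, false_imp_iff, implies_true,
        and_true, forall_ws, mem_lev, List.mem_filter, List.mem_range, decide_eq_true_eq,
        cnt0, cnt1, cnt2, cnt3, cnt4, cnt5, cnt6, cnt7, cnt8, cnt9, cnt10, cnt11, cnt12, cnt13, cnt14, cnt15, cnt16, cnt17, cnt18, cnt19, cnt20, cnt21, cnt22, cnt23, cnt24, cnt25, cnt26, cnt27, cnt28, cnt29, cnt30, cnt31, cnt32, cnt33, cnt34, cnt38, cnt39, cnt40, cnt41, cnt42, cnt43, cnt44, cnt45, cnt46, cnt47, cnt48, cnt49, cnt50, nlt]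
      repeat' first | refine And.intro ?_ ?_ | intro _
      all_goals omega

end

end Pool.Agent.MPa0a715
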