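import Pool.Agent.Lib.PolyTime.Arith
import Pool.Agent.Lib.MP_a0a715_lc.Gadget

/-!
# Polynomial-time computability: numbers in unary, gates, translation of named gates
-/

namespace Pool.Agent.MPa0a715

open Pool.Agent.PolyTime

section
variable {α β γ : Type} [Enc α] [Enc β] [Enc γ]

/-- the number is computed in unary -/
def PU (f : α → ℕ) : Prop := PTime (fun a => List.replicate (f a) ())

theorem PU.ofLength {f : α → List β} (hf : PTime f) : PU (fun a => (f a).length) := by
  have h : PTime (fun a => (f a).map (fun _ => ())) :=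
    PTime.map (g := fun (_ : α) (_ : β) => ()) hf (PTime.const ())
  exact h.of_eq fun a => by simp [List.map_const']

theorem PU.of_eq {f g : α → ℕ} (hf : PU f) (h : ∀ x, f x = g x) : PU g :=
  PTime.of_eq hf fun x => by rw [h x]

theorem PU.const (k : ℕ) : PU (fun _ : α => k) := PTime.const _

theorem PU.add {f g : α → ℕ} (hf : PU f) (hg : PU g) : PU (fun a => f a + g a) :=
  (PTime.append hf hg).of_eq fun a => by simp

theorem PU.mul {f g : α → ℕ} (hf : PU f) (hg : PU g) : PU (fun a => f a * g a) := by
  have h : PTime₂ (fun (a : α) (_ : Unit) => List.replicate (g a) ()) :=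
    PTime.comp hg PTime.fst
  have h2 := PU.ofLength (PTime.flatMap hf h)
  refine h2.of_eq fun a => ?_
  rw [List.length_flatMap]
  simp

theorem PU.toNat {f : α → ℕ} (hf : PU f) : PTime f :=
  (PTime.length hf).of_eq fun a => by simp

theorem PU.range {f : α → ℕ} (hf : PU f) : PTime (fun a => List.range (f a)) :=
  (PTime.rangeLength hf).of_eq fun a => by simp

theorem PU.comp {f : β → ℕ} {g : α → β} (hf : PU f) (hg : PTime g) : PU (fun a => f (g a)) :=
  PTime.comp hf hg

/-! ### gates -/

/-- the code of a gate -/
def Gate.code : Gate → Option Bool × ℕ × ℕ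
  | .and i j => (some true, i, j)
  | .or i j => (some false, i, j)
  | .not i => (none, i, 0)

theorem enc_gate (g : Gate) : enc g = enc g.code := by
  cases g <;> rfl

theorem ptime_code {f : α → Gate} (hf : PTime f) : PTime (fun a => (f a).code) :=
  hf.of_enc_eq (fun x => x) (fun _ => rfl) (fun a => (enc_gate (f a)).symm)

theorem ptime_and {f g : α → ℕ} (hf : PTime f) (hg : PTime g) :
    PTime (fun a => Gate.and (f a) (g a)) :=
  ((PTime.const (some true)).pair (hf.pair hg)).of_enc_eq (fun x => x) (fun _ => rfl)
    (fun _ => rfl)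

theorem ptime_or {f g : α → ℕ} (hf : PTime f) (hg : PTime g) :
    PTime (fun a => Gate.or (f a) (g a)) :=
  ((PTime.const (some false)).pair (hf.pair hg)).of_enc_eq (fun x => x) (fun _ => rfl)
    (fun _ => rfl)

theorem ptime_not {f : α → ℕ} (hf : PTime f) : PTime (fun a => Gate.not (f a)) :=
  ((PTime.const (none : Option Bool)).pair (hf.pair (PTime.const 0))).of_enc_eq (fun x => x)
    (fun _ => rfl) (fun _ => rfl)

theorem ptime_ite_eq [EncInj β] [DecidableEq β] {f : α → β} {b : β} {g h : α → γ} (hf : PTime f)
    (hg : PTime g) (hh : PTime h) : PTime (fun a => if f a = b then g a else h a) :=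
  PTime.iteP (PTime.eq hf (PTime.const b)) hg hh

theorem ptime_mkGate {k : α → Option Bool} {p h r i : α → ℕ} (hk : PTime k) (hp : PTime p)
    (hh : PTime h) (hr : PTime r) (hi : PTime i) :
    PTime (fun a => mkGate (k a) (p a) (h a) (r a) (i a)) := by
  have h1 : PTime (fun a => if i a = 0 then h a else p a) := ptime_ite_eq hi hh hp
  refine (ptime_ite_eq hk (b := some true) (ptime_and h1 hr) (ptime_ite_eq hk (b := some false)
    (ptime_or h1 hr) (ptime_ite_eq hi (b := 0) (ptime_not hh) (ptime_and hp hp)))).of_eq
    fun a => ?_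
  unfold mkGate
  match k a with
  | some true => simp
  | some false => simp
  | none => simp

/-! ### circuits -/

theorem ptime_circuit {n : α → ℕ} {g : α → List Gate} {o : α → List ℕ} (hn : PU n)
    (hg : PTime g) (ho : PTime o) : PTime (fun a => Circuit.mk (n a) (g a) (o a)) :=
  (PTime.pair hn (hg.pair ho)).of_enc_eq (fun x => x) (fun _ => rfl) (fun _ => rfl)

theorem ptime_parts {f : α → Circuit} (hf : PTime f) :
    PTime (fun a => (List.replicate (f a).n (), (f a).gates, (f a).outs)) :=
  hf.of_enc_eq (fun x => x) (fun _ => rfl) (fun _ => rfl)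

theorem pu_n {f : α → Circuit} (hf : PTime f) : PU (fun a => (f a).n) :=
  (ptime_parts hf).fst'

theorem ptime_gates {f : α → Circuit} (hf : PTime f) : PTime (fun a => (f a).gates) :=
  (ptime_parts hf).snd'.fst'

theorem ptime_outs {f : α → Circuit} (hf : PTime f) : PTime (fun a => (f a).outs) :=
  (ptime_parts hf).snd'.snd'

/-! ### translation of named gates -/

theorem ptime_pos {f : α → List Name} {g : α → Name} (hf : PTime f) (hg : PTime g) :
    PTime (fun a => pos (f a) (g a)) := by
  have h1 : PTime₂ (fun (a : α) (p : Name × ℕ) => decide (p.1 = g a)) :=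
    PTime.eq (PTime.fst' PTime.snd) (hg.comp PTime.fst)
  have h2 := PTime.find? (PTime.zipIdx hf) h1
  have h3 := PTime.omap (g := fun (_ : α) (p : Name × ℕ) => p.2) h2 (PTime.snd' PTime.snd)
  exact PTime.getD h3 (PTime.const 0)

theorem ptime_wireOf {N K : α → ℕ} {f : α → List Name} {g : α → Name} (hN : PTime N)
    (hK : PTime K) (hf : PTime f) (hg : PTime g) :
    PTime (fun a => wireOf (N a) (K a) (f a) (g a)) := by
  have h := ptime_pos hf hg
  exact PTime.iteP (PTime.lt h hN) h ((hN.add (((h.sub hN).add (PTime.const 1)).mul hK)).sub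
    (PTime.const 1))

theorem ptime_headD {f : α → List Name} (hf : PTime f) :
    PTime (fun a => (f a).headD (0, 0)) := by
  refine (PTime.getD hf.head? (PTime.const ((0, 0) : Name))).of_eq fun a => ?_
  cases f a <;> rfl

theorem ptime_cgate {N K t : α → ℕ} {f : α → List Name} {g : α → List NG} (hN : PTime N)
    (hK : PTime K) (hf : PTime f) (hg : PTime g) (ht : PTime t) :
    PTime (fun a => cgate (N a) (K a) (f a) (g a) (t a)) := by
  have h1 : PTime (fun a => (g a)[t a / K a]?) := PTime.getElem? hg (ht.div hK)
  have hN' : PTime (fun p : α × NG => N p.1) := hN.comp PTime.fst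
  have hK' : PTime (fun p : α × NG => K p.1) := hK.comp PTime.fst
  have hf' : PTime (fun p : α × NG => f p.1) := hf.comp PTime.fst
  have ht' : PTime (fun p : α × NG => t p.1) := ht.comp PTime.fst
  have hr : PTime (fun p : α × NG => p.2.2.2) := (PTime.snd' PTime.snd).snd'
  have hk : PTime (fun p : α × NG => p.2.2.1) := (PTime.snd' PTime.snd).fst'
  have hh := ptime_headD hr
  have hm : PTime (fun p : α × NG => t p.1 % K p.1) := ht'.mod hK'
  have hd := PTime.listGetD hr hm hh
  have h2 := ptime_mkGate hk ((hN'.add ht').sub (PTime.const 1)) (ptime_wireOf hN' hK' hf' hh)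
    (ptime_wireOf hN' hK' hf' hd) hm
  refine (PTime.option_cases h1 (PTime.const (Gate.and 0 0)) h2).of_eq fun a => ?_
  unfold cgate
  cases (g a)[t a / K a]? <;> rfl

theorem pu_fanin {g : α → List NG} (hg : PTime g) : PU (fun a => fanin (g a)) := by
  have h : PTime₂ (fun (_ : α) (g : NG) => g.2.2) := (PTime.snd' PTime.snd).snd'
  exact (PU.ofLength (PTime.flatMap hg h)).add (PU.const 1)

theorem ptime_compile {f o : α → List Name} {g : α → List NG} (hf : PTime f) (hg : PTime g)
    (ho : PTime o) : PTime (fun a => compile (f a) (g a) (o a)) := by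
  have hK := pu_fanin hg
  have hN : PTime (fun a => (f a).length) := PTime.length hf
  have hnames : PTime (fun a => f a ++ (g a).map Prod.fst) :=
    PTime.append hf (PTime.map (g := fun (_ : α) (p : NG) => p.1) hg (PTime.fst' PTime.snd))
  refine ptime_circuit (PU.ofLength hf) ?_ ?_
  · refine PTime.map (g := fun (a : α) (t : ℕ) => cgate (f a).length (fanin (g a))
      (f a ++ (g a).map Prod.fst) (g a) t) (PU.range ((PU.ofLength hg).mul hK)) ?_
    exact ptime_cgate (hN.comp PTime.fst) (hK.toNat.comp PTime.fst) (hnames.comp PTime.fst)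
      (hg.comp PTime.fst) PTime.snd
  · refine PTime.map (g := fun (a : α) (w : Name) => wireOf (f a).length (fanin (g a))
      (f a ++ (g a).map Prod.fst) w) ho ?_
    exact ptime_wireOf (hN.comp PTime.fst) (hK.toNat.comp PTime.fst) (hnames.comp PTime.fst)
      PTime.snd

end

end Pool.Agent.MPa0a715
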