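import Pool.Agent.Lib.MP_a0a715_lc.PT

/-!
# The reduction is computed in polynomial time
-/

namespace Pool.Agent.MPa0a715

open Pool.Agent.PolyTime

section
variable {α β γ : Type} [Enc α] [Enc β] [Enc γ]

theorem ptime_ws {b : ℕ} {l : α → List ℕ} (hl : PTime l) : PTime (fun a => ws b (l a)) :=
  PTime.map (g := fun (_ : α) (i : ℕ) => ((b, i) : Name)) hl ((PTime.const b).pair PTime.snd)

theorem ptime_inS {f g : α → ℕ} (hf : PTime f) (hg : PTime g) :
    PTime (fun a => inS (f a) (g a)) := by
  have h3 : PTime (fun a => f a / 3) := hf.div (PTime.const 3)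
  exact PTime.and (PTime.le h3 hg) (PTime.lt hg (hf.sub h3))

theorem ptime_mod_eq {f : α → ℕ} (hf : PTime f) (k c : ℕ) :
    PTime (fun a => decide (f a % k = c)) :=
  PTime.eq (hf.mod (PTime.const k)) (PTime.const c)

theorem ptime_lev {m : α → ℕ} (hm : PU m) (c : ℕ) : PTime (fun a => lev (m a) c) := by
  have h1 : PU (fun a => 3 * m a) := (PU.const 3).mul hm
  have h2 : PTime₂ (fun (_ : α) (t : ℕ) => decide ((t + 1) % 3 = c)) :=
    ptime_mod_eq (PTime.snd.add (PTime.const 1)) 3 c
  exact PTime.filter h1.range h2

theorem ptime_toG_cons {b : ℕ} {l : α → Blk} {bs : α → List Blk} (hn : PU (fun a => (l a).1))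
    (hl : PTime (fun p : α × ℕ => (l p.1).2 p.2)) (hbs : PTime (fun a => toG (b + 1) (bs a))) :
    PTime (fun a => toG b (l a :: bs a)) := by
  have h : PTime₂ (fun (a : α) (i : ℕ) => (((b, i), (l a).2 i) : NG)) :=
    ((PTime.const b).pair PTime.snd).pair hl
  exact PTime.append (PTime.map hn.range h) hbs

theorem ptime_drf {m t : α → ℕ} {G : α → List Gate} (hm : PTime m) (ht : PTime t)
    (hG : PTime G) : PTime (fun a => drf (m a) (G a) (t a)) := by
  have hq : PTime (fun a => t a / 4) := ht.div (PTime.const 4)
  have hr : PTime (fun a => t a % 4) := ht.mod (PTime.const 4)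
  have hm1 : PTime (fun a => m a + 1) := hm.add (PTime.const 1)
  have hp : PTime (fun a => ((0, 2 * m a + 1 + t a / 4) : Name)) :=
    (PTime.const 0).pair ((((PTime.const 2).mul hm).add (PTime.const 1)).add hq)
  have hn : PTime (fun a => ((0, m a + t a / 4) : Name)) := (PTime.const 0).pair (hm.add hq)
  have hf : PTime (fun a => ((37, t a / 4) : Name)) := (PTime.const 37).pair hq
  have hnil : PTime (fun _ : α => ([] : List Name)) := PTime.const _
  have ht' : PTime (fun _ : α => (some true : Option Bool)) := PTime.const _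
  have e1 : PTime (fun a => ((some true, [(0, 2 * m a + 1 + t a / 4), (37, t a / 4)]) :
      Option Bool × List Name)) := ht'.pair (hp.cons (hf.cons hnil))
  have e2 : PTime (fun a => ((some true, [(0, m a + t a / 4)]) :
      Option Bool × List Name)) := ht'.pair (hn.cons hnil)
  have e3 : PTime (fun a => ((some true, [(0, 2 * m a + 1 + t a / 4)]) :
      Option Bool × List Name)) := ht'.pair (hp.cons hnil)
  have e4 : PTime (fun a => ((some true, [(0, m a + t a / 4), (37, t a / 4)]) :
      Option Bool × List Name)) := ht'.pair (hn.cons (hf.cons hnil))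
  have hg : PTime (fun a => (G a)[t a / 4 - (m a + 1)]?) := PTime.getElem? hG (hq.sub hm1)
  -- the case of gates
  have hc : PTime (fun p : α × Gate => p.2.code) := ptime_code PTime.snd
  have hk : PTime (fun p : α × Gate => p.2.code.1) := hc.fst'
  have hi : PTime (fun p : α × Gate => p.2.code.2.1) := hc.snd'.fst'
  have hj : PTime (fun p : α × Gate => p.2.code.2.2) := hc.snd'.snd'
  have hrp : PTime (fun p : α × Gate => t p.1 % 4) := hr.comp PTime.fst
  have h2p : PTime (fun p : α × Gate => t p.1 % 2) := (ht.mod (PTime.const 2)).comp PTime.fst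
  have hnil' : PTime (fun _ : α × Gate => ([] : List Name)) := PTime.const _
  have ni : PTime (fun p : α × Gate => ((38, 4 * p.2.code.2.1 + t p.1 % 4) : Name)) :=
    (PTime.const 38).pair (((PTime.const 4).mul hi).add hrp)
  have nj : PTime (fun p : α × Gate => ((38, 4 * p.2.code.2.2 + t p.1 % 4) : Name)) :=
    (PTime.const 38).pair (((PTime.const 4).mul hj).add hrp)
  have f1 : PTime (fun p : α × Gate => ((some (decide (t p.1 % 2 = 0)),
      [(38, 4 * p.2.code.2.1 + t p.1 % 4), (38, 4 * p.2.code.2.2 + t p.1 % 4)]) :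
      Option Bool × List Name)) :=
    (PTime.some (PTime.eq h2p (PTime.const 0))).pair (ni.cons (nj.cons hnil'))
  have f2 : PTime (fun p : α × Gate => ((some (decide (t p.1 % 2 = 1)),
      [(38, 4 * p.2.code.2.1 + t p.1 % 4), (38, 4 * p.2.code.2.2 + t p.1 % 4)]) :
      Option Bool × List Name)) :=
    (PTime.some (PTime.eq h2p (PTime.const 1))).pair (ni.cons (nj.cons hnil'))
  have hx : PTime (fun p : α × Gate => if t p.1 % 2 = 0 then t p.1 % 4 + 1 else t p.1 % 4 - 1) :=
    ptime_ite_eq h2p (hrp.add (PTime.const 1)) (hrp.sub (PTime.const 1))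
  have f3 : PTime (fun p : α × Gate => ((some true, [(38, 4 * p.2.code.2.1 +
      (if t p.1 % 2 = 0 then t p.1 % 4 + 1 else t p.1 % 4 - 1))]) : Option Bool × List Name)) :=
    (PTime.const (some true)).pair (((PTime.const 38).pair
      (((PTime.const 4).mul hi).add hx)).cons hnil')
  have f := ptime_ite_eq hk (b := some true) f1 (ptime_ite_eq hk (b := some false) f2 f3)
  have h2 := PTime.option_cases hg (PTime.const ((some true, [(0, 0)]) :
    Option Bool × List Name)) f
  refine (PTime.iteP (PTime.lt hq hm1) (ptime_ite_eq hr (b := 0) e1 (ptime_ite_eq hr (b := 1) e2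
    (ptime_ite_eq hr (b := 2) e3 e4))) h2).of_eq fun a => ?_
  unfold drf
  congr 1
  cases (G a)[t a / 4 - (m a + 1)]? with
  | none => rfl
  | some g => cases g <;> rfl

theorem ptime_blocks {m : α → ℕ} {G : α → List Gate} {O : α → List ℕ} (hm : PU m)
    (hG : PTime G) (hO : PTime O) : PTime (fun a => toG 1 (blocks (m a) (G a) (O a))) := by
  -- numbers
  have u1 : PU (fun a => m a + 1) := hm.add (PU.const 1)
  have u2 : PU (fun a => 3 * m a) := (PU.const 3).mul hm
  have u3 : PU (fun a => 3 * m a + 2) := u2.add (PU.const 2)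
  have u4 : PU (fun a => 4 * (m a + 1 + (G a).length)) :=
    (PU.const 4).mul (u1.add (PU.ofLength hG))
  have u5 : PU (fun a => (O a).length) := PU.ofLength hO
  have u6 : PU (fun _ : α => 1) := PU.const 1
  -- ranges
  have hi : PTime (fun p : α × ℕ => p.2) := PTime.snd
  have hm1 : PTime (fun p : α × ℕ => m p.1) := hm.toNat.comp PTime.fst
  have r0 : PTime (fun p : α × ℕ => List.range (m p.1)) := hm.range.comp PTime.fst
  have r1 : PTime (fun p : α × ℕ => List.range (m p.1 + 1)) := u1.range.comp PTime.fst
  have r3 : PTime (fun p : α × ℕ => List.range (3 * m p.1 + 2)) := u3.range.comp PTime.fst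
  have r5 : PTime (fun p : α × ℕ => List.range (O p.1).length) := u5.range.comp PTime.fst
  have l0 : PTime (fun p : α × ℕ => lev (m p.1) 0) := (ptime_lev hm 0).comp PTime.fst
  have l1 : PTime (fun p : α × ℕ => lev (m p.1) 1) := (ptime_lev hm 1).comp PTime.fst
  have l2 : PTime (fun p : α × ℕ => lev (m p.1) 2) := (ptime_lev hm 2).comp PTime.fst
  have o4 : PTime (fun p : α × ℕ => 4 * (O p.1).getD p.2 0) :=
    (PTime.const 4).mul (PTime.listGetD (hO.comp PTime.fst) hi (PTime.const 0))
  have b5 : PTime (fun p : α × ℕ => (List.range (m p.1 + 1)).filter fun j =>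
      decide (j ≠ p.2)) :=
    PTime.filter (g := fun (p : α × ℕ) (j : ℕ) => decide (j ≠ p.2)) r1
      (PTime.notP (PTime.eq PTime.snd (PTime.snd' PTime.fst)))
  have hin : PTime (fun p : (α × ℕ) × ℕ => inS (p.1.2 + 1) p.2) :=
    ptime_inS ((PTime.snd' PTime.fst).add (PTime.const 1)) PTime.snd
  have b9 : PTime (fun p : α × ℕ => (List.range (3 * m p.1 + 2)).filter fun i =>
      inS (p.2 + 1) i) :=
    PTime.filter (g := fun (p : α × ℕ) (j : ℕ) => inS (p.2 + 1) j) r3 hin
  have b10 : PTime (fun p : α × ℕ => (List.range (3 * m p.1 + 2)).filter fun i =>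
      !inS (p.2 + 1) i) :=
    PTime.filter (g := fun (p : α × ℕ) (j : ℕ) => !inS (p.2 + 1) j) r3 hin.not
  have b44 : PTime (fun p : α × ℕ => (List.range (O p.1).length).filter fun s =>
      decide (p.2 < s)) :=
    PTime.filter (g := fun (p : α × ℕ) (s : ℕ) => decide (p.2 < s)) r5
      (PTime.lt (PTime.snd' PTime.fst) PTime.snd)
  have b36 : PTime (fun p : α × ℕ => if (p.2 + 1) % 3 = 1 then 21 else
      if (p.2 + 1) % 3 = 2 then 13 else 17) := by
    have h : PTime (fun p : α × ℕ => (p.2 + 1) % 3) :=
      (hi.add (PTime.const 1)).mod (PTime.const 3)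
    exact ptime_ite_eq h (PTime.const 21) (ptime_ite_eq h (PTime.const 13) (PTime.const 17))
  have b38 : PTime (fun p : α × ℕ => drf (m p.1) (G p.1) p.2) :=
    ptime_drf hm1 hi (hG.comp PTime.fst)
  unfold blocks
  iterate 51
    refine ptime_toG_cons ?_ ?_ ?_
    · first
      | exact u1
      | exact u2
      | exact u3
      | exact u4
      | exact u5
      | exact u6
    · try dsimp only [one]
      first
      | exact PTime.const _
      | exact b38
      | (repeat' first
          | exact PTime.const _
          | exact hi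
          | exact hm1
          | exact r0
          | exact r1
          | exact r3
          | exact r5
          | exact l0
          | exact l1
          | exact l2
          | exact o4
          | exact b5
          | exact b9
          | exact b10
          | exact b44
          | exact b36
          | apply ptime_ws
          | apply PTime.pair
          | apply PTime.cons
          | apply PTime.add
          | apply PTime.mul)
  exact PTime.const _

end

end Pool.Agent.MPa0a715
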