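import Pool.Agent.Lib.MP_a0a715_lc.Gadget
import Pool.Agent.Lib.MP_a0a715_lc.Comb

/-!
# The values of the wires
-/

namespace Pool.Agent.MPa0a715

theorem exists_ws {b : ℕ} {l : List ℕ} {p : Name → Prop} :
    (∃ r ∈ ws b l, p r) ↔ ∃ j ∈ l, p (b, j) := by
  constructor
  · rintro ⟨r, hr, h⟩
    obtain ⟨h1, h2⟩ := mem_ws.1 hr
    refine ⟨r.2, h2, ?_⟩
    rwa [← h1]
  · rintro ⟨j, hj, h⟩
    exact ⟨(b, j), mem_ws.2 ⟨rfl, hj⟩, h⟩

theorem exists_cons {a : Name} {l : List Name} {p : Name → Prop} :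
    (∃ r ∈ a :: l, p r) ↔ p a ∨ ∃ r ∈ l, p r := by
  simp

theorem exists_nil {p : Name → Prop} : (∃ r ∈ ([] : List Name), p r) ↔ False := by
  simp

theorem forall_nil {p : Name → Prop} : (∀ r ∈ ([] : List Name), p r) ↔ True := by
  simp

section
variable {m : ℕ} {G : List Gate} {O : List ℕ} {E : Name → Bool}

theorem w1 (hE : ∀ g ∈ toG 1 (blocks m G O), GSat E g) {i : ℕ} (hi : i ≤ m) :
    E (1, i) = true ↔ (E (0, m + i) = true ∨ E (0, 2 * m + 1 + i) = true) := by
  have h := sat_or (sat_blocks hE (i := 0) rfl i (Nat.lt_succ_of_le hi))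
  rw [exists_cons, exists_cons, exists_nil, or_false] at h
  exact h

theorem w2 (hE : ∀ g ∈ toG 1 (blocks m G O), GSat E g) {i : ℕ} (hi : i ≤ m) :
    E (2, i) = true ↔ Ful m (fun i => E (0, i)) i := by
  have h := sat_and (sat_blocks hE (i := 1) rfl i (Nat.lt_succ_of_le hi))
  rw [List.forall_mem_cons, List.forall_mem_cons, forall_nil, and_true] at h
  exact h

theorem w3 (hE : ∀ g ∈ toG 1 (blocks m G O), GSat E g) :
    E (3, 0) = true ↔ All m (fun i => E (0, i)) := by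
  have h := sat_and (sat_blocks hE (i := 2) rfl 0 Nat.one_pos)
  rw [forall_ws] at h
  rw [show (3, 0) = (1 + 2, 0) from rfl, h]
  unfold All
  constructor
  · intro h1 i hi
    exact (w1 hE hi).1 (h1 i (List.mem_range.2 (by omega)))
  · intro h1 i hi
    rw [List.mem_range] at hi
    exact (w1 hE (by omega)).2 (h1 i (by omega))

theorem w4 (hE : ∀ g ∈ toG 1 (blocks m G O), GSat E g) :
    E (4, 0) = true ↔ AnyF m (fun i => E (0, i)) := by
  have h := sat_or (sat_blocks hE (i := 3) rfl 0 Nat.one_pos)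
  rw [exists_ws] at h
  rw [show (4, 0) = (1 + 3, 0) from rfl, h]
  unfold AnyF
  constructor
  · rintro ⟨i, hi, h1⟩
    rw [List.mem_range] at hi
    exact ⟨i, by omega, (w2 hE (by omega)).1 h1⟩
  · rintro ⟨i, hi, h1⟩
    exact ⟨i, List.mem_range.2 (by omega), (w2 hE hi).2 h1⟩

theorem w5 (hE : ∀ g ∈ toG 1 (blocks m G O), GSat E g) {i : ℕ} (hi : i ≤ m) :
    E (5, i) = true ↔ ∃ j ≤ m, j ≠ i ∧ Ful m (fun i => E (0, i)) j := by
  have h := sat_or (sat_blocks hE (i := 4) rfl i (Nat.lt_succ_of_le hi))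
  rw [exists_ws] at h
  rw [show (5, i) = (1 + 4, i) from rfl, h]
  constructor
  · rintro ⟨j, hj, h1⟩
    rw [List.mem_filter, List.mem_range, decide_eq_true_eq] at hj
    exact ⟨j, by omega, hj.2, (w2 hE (by omega)).1 h1⟩
  · rintro ⟨j, hj, h1, h2⟩
    exact ⟨j, List.mem_filter.2 ⟨List.mem_range.2 (by omega), decide_eq_true h1⟩,
      (w2 hE hj).2 h2⟩

theorem w6 (hE : ∀ g ∈ toG 1 (blocks m G O), GSat E g) {i : ℕ} (hi : i ≤ m) :
    E (6, i) = true ↔ Ful m (fun i => E (0, i)) i ∧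
      ∃ j ≤ m, j ≠ i ∧ Ful m (fun i => E (0, i)) j := by
  have h := sat_and (sat_blocks hE (i := 5) rfl i (Nat.lt_succ_of_le hi))
  rw [List.forall_mem_cons, List.forall_mem_cons, forall_nil, and_true, w2 hE hi, w5 hE hi] at h
  exact h

theorem w7 (hE : ∀ g ∈ toG 1 (blocks m G O), GSat E g) :
    E (7, 0) = true ↔ Two m (fun i => E (0, i)) := by
  have h := sat_or (sat_blocks hE (i := 6) rfl 0 Nat.one_pos)
  rw [exists_ws] at h
  rw [show (7, 0) = (1 + 6, 0) from rfl, h]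
  unfold Two
  constructor
  · rintro ⟨i, hi, h1⟩
    rw [List.mem_range] at hi
    exact ⟨i, by omega, (w6 hE (by omega)).1 h1⟩
  · rintro ⟨i, hi, h1⟩
    exact ⟨i, List.mem_range.2 (by omega), (w6 hE hi).2 h1⟩

theorem w8 (hE : ∀ g ∈ toG 1 (blocks m G O), GSat E g) :
    E (8, 0) = true ↔ Low m (fun i => E (0, i)) := by
  have h := sat_or (sat_blocks hE (i := 7) rfl 0 Nat.one_pos)
  rw [exists_ws] at h
  rw [show (8, 0) = (1 + 7, 0) from rfl, h]
  unfold Low
  simp only [List.mem_range]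

theorem w9 (hE : ∀ g ∈ toG 1 (blocks m G O), GSat E g) {t : ℕ} (ht : t < 3 * m) :
    E (9, t) = true ↔ Sup (fun i => E (0, i)) (t + 1) := by
  have h := sat_and (sat_blocks hE (i := 8) rfl t ht)
  rw [forall_ws] at h
  rw [show (9, t) = (1 + 8, t) from rfl, h]
  unfold Sup
  simp only [List.mem_filter, List.mem_range, inS_iff]
  constructor
  · intro h1 i hi1 hi2
    exact h1 i ⟨by omega, hi1, hi2⟩
  · intro h1 i hi
    exact h1 i hi.2.1 hi.2.2

theorem w10 (hE : ∀ g ∈ toG 1 (blocks m G O), GSat E g) {t : ℕ} (ht : t < 3 * m) :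
    E (10, t) = true ↔ Out m (fun i => E (0, i)) (t + 1) := by
  have h := sat_or (sat_blocks hE (i := 9) rfl t ht)
  rw [exists_ws] at h
  rw [show (10, t) = (1 + 9, t) from rfl, h]
  unfold Out
  simp only [List.mem_filter, List.mem_range, Bool.not_eq_true', ← Bool.not_eq_true, inS_iff]
  constructor
  · rintro ⟨i, ⟨h1, h2⟩, h3⟩
    exact ⟨i, h1, h2, h3⟩
  · rintro ⟨i, h1, h2, h3⟩
    exact ⟨i, ⟨h1, h2⟩, h3⟩

theorem w11 (hE : ∀ g ∈ toG 1 (blocks m G O), GSat E g) {t : ℕ} (ht : t < 3 * m) :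
    E (11, t) = true ↔ Sup (fun i => E (0, i)) (t + 1) ∧ Out m (fun i => E (0, i)) (t + 1) := by
  have h := sat_and (sat_blocks hE (i := 10) rfl t ht)
  rw [List.forall_mem_cons, List.forall_mem_cons, forall_nil, and_true, w9 hE ht,
    w10 hE ht] at h
  exact h

theorem some_lev (hE : ∀ g ∈ toG 1 (blocks m G O), GSat E g) (c : ℕ) :
    (∃ r ∈ ws 9 (lev m c), E r = true) ↔ Some m (fun i => E (0, i)) c := by
  rw [exists_ws]
  unfold Some
  constructor
  · rintro ⟨t, ht, h1⟩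
    rw [mem_lev] at ht
    exact ⟨t + 1, by omega, by omega, ht.2, (w9 hE ht.1).1 h1⟩
  · rintro ⟨u, h1, h2, h3, h4⟩
    obtain ⟨t, rfl⟩ : ∃ t, u = t + 1 := ⟨u - 1, by omega⟩
    exact ⟨t, mem_lev.2 ⟨by omega, h3⟩, (w9 hE (by omega)).2 h4⟩

theorem proper_lev (hE : ∀ g ∈ toG 1 (blocks m G O), GSat E g) (c : ℕ) :
    (∃ r ∈ ws 11 (lev m c), E r = true) ↔ Proper m (fun i => E (0, i)) c := by
  rw [exists_ws]
  unfold Proper
  constructor
  · rintro ⟨t, ht, h1⟩
    rw [mem_lev] at ht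
    exact ⟨t + 1, by omega, by omega, ht.2, (w11 hE ht.1).1 h1⟩
  · rintro ⟨u, h1, h2, h3, h4⟩
    obtain ⟨t, rfl⟩ : ∃ t, u = t + 1 := ⟨u - 1, by omega⟩
    exact ⟨t, mem_lev.2 ⟨by omega, h3⟩, (w11 hE (by omega)).2 h4⟩

theorem w12 (hE : ∀ g ∈ toG 1 (blocks m G O), GSat E g) :
    E (12, 0) = true ↔ All m (fun i => E (0, i)) ∧ AnyF m (fun i => E (0, i)) := by
  have h := sat_and (sat_blocks hE (i := 11) rfl 0 Nat.one_pos)
  rw [List.forall_mem_cons, List.forall_mem_cons, forall_nil, and_true, w3 hE, w4 hE] at h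
  exact h

theorem w13 (hE : ∀ g ∈ toG 1 (blocks m G O), GSat E g) :
    E (13, 0) = true ↔ U3 m (fun i => E (0, i)) := by
  have h := sat_or (sat_blocks hE (i := 12) rfl 0 Nat.one_pos)
  rw [exists_cons, some_lev hE, w12 hE] at h
  exact h

theorem w14 (hE : ∀ g ∈ toG 1 (blocks m G O), GSat E g) :
    E (14, 0) = true ↔ U2 m (fun i => E (0, i)) := by
  have h := sat_or (sat_blocks hE (i := 13) rfl 0 Nat.one_pos)
  rw [exists_cons, some_lev hE, w3 hE] at h
  exact h

theorem w15 (hE : ∀ g ∈ toG 1 (blocks m G O), GSat E g) :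
    E (15, 0) = true ↔ U1 m (fun i => E (0, i)) := by
  have h := sat_or (sat_blocks hE (i := 14) rfl 0 Nat.one_pos)
  rw [exists_cons, some_lev hE, w14 hE] at h
  exact h

theorem w16 (hE : ∀ g ∈ toG 1 (blocks m G O), GSat E g) :
    E (16, 0) = true ↔ ¬ U2 m (fun i => E (0, i)) := by
  have h := sat_not (sat_blocks hE (i := 15) rfl 0 Nat.one_pos)
  rw [← w14 hE, show (16, 0) = (1 + 15, 0) from rfl, h]
  cases E (14, 0) <;> simp

theorem w17 (hE : ∀ g ∈ toG 1 (blocks m G O), GSat E g) :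
    E (17, 0) = true ↔ U1 m (fun i => E (0, i)) ∧ ¬ U2 m (fun i => E (0, i)) := by
  have h := sat_and (sat_blocks hE (i := 16) rfl 0 Nat.one_pos)
  rw [List.forall_mem_cons, List.forall_mem_cons, forall_nil, and_true, w15 hE, w16 hE] at h
  exact h

theorem w18 (hE : ∀ g ∈ toG 1 (blocks m G O), GSat E g) :
    E (18, 0) = true ↔ (U1 m (fun i => E (0, i)) ∧ ¬ U2 m (fun i => E (0, i))) ∨
      U3 m (fun i => E (0, i)) := by
  have h := sat_or (sat_blocks hE (i := 17) rfl 0 Nat.one_pos)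
  rw [exists_cons, exists_cons, exists_nil, or_false, w17 hE, w13 hE] at h
  exact h

theorem w19 (hE : ∀ g ∈ toG 1 (blocks m G O), GSat E g) :
    E (19, 0) = true ↔ Q m (fun i => E (0, i)) := by
  have h := sat_not (sat_blocks hE (i := 18) rfl 0 Nat.one_pos)
  unfold Q
  rw [← w18 hE, show (19, 0) = (1 + 18, 0) from rfl, h]
  cases E (18, 0) <;> simp

theorem w20 (hE : ∀ g ∈ toG 1 (blocks m G O), GSat E g) :
    E (20, 0) = true ↔ ¬ U2 m (fun i => E (0, i)) ∧ Q m (fun i => E (0, i)) := by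
  have h := sat_and (sat_blocks hE (i := 19) rfl 0 Nat.one_pos)
  rw [List.forall_mem_cons, List.forall_mem_cons, forall_nil, and_true, w16 hE, w19 hE] at h
  exact h

theorem w21 (hE : ∀ g ∈ toG 1 (blocks m G O), GSat E g) :
    E (21, 0) = true ↔ U2 m (fun i => E (0, i)) ∧ Q m (fun i => E (0, i)) := by
  have h := sat_and (sat_blocks hE (i := 20) rfl 0 Nat.one_pos)
  rw [List.forall_mem_cons, List.forall_mem_cons, forall_nil, and_true, w14 hE, w19 hE] at h
  exact h

theorem w22 (hE : ∀ g ∈ toG 1 (blocks m G O), GSat E g) :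
    E (22, 0) = true ↔ Any m (fun i => E (0, i)) := by
  have h := sat_or (sat_blocks hE (i := 21) rfl 0 Nat.one_pos)
  rw [exists_ws] at h
  rw [show (22, 0) = (1 + 21, 0) from rfl, h]
  unfold Any
  simp only [List.mem_range]

theorem w34 (hE : ∀ g ∈ toG 1 (blocks m G O), GSat E g) :
    E (34, 0) = true ↔ Ill m (fun i => E (0, i)) := by
  have h23 := sat_and (sat_blocks hE (i := 22) rfl 0 Nat.one_pos)
  rw [List.forall_mem_cons, List.forall_mem_cons, forall_nil, and_true, w20 hE, w22 hE] at h23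
  have h24 := sat_or (sat_blocks hE (i := 23) rfl 0 Nat.one_pos)
  rw [proper_lev hE] at h24
  have h25 := sat_and (sat_blocks hE (i := 24) rfl 0 Nat.one_pos)
  rw [List.forall_mem_cons, List.forall_mem_cons, forall_nil, and_true, w17 hE,
    show (24, 0) = (1 + 23, 0) from rfl, h24] at h25
  have h26 := sat_and (sat_blocks hE (i := 25) rfl 0 Nat.one_pos)
  rw [List.forall_mem_cons, List.forall_mem_cons, forall_nil, and_true, w3 hE, w8 hE] at h26
  have h27 := sat_or (sat_blocks hE (i := 26) rfl 0 Nat.one_pos)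
  rw [exists_cons, proper_lev hE, show (26, 0) = (1 + 25, 0) from rfl, h26] at h27
  have h28 := sat_and (sat_blocks hE (i := 27) rfl 0 Nat.one_pos)
  rw [List.forall_mem_cons, List.forall_mem_cons, forall_nil, and_true, w21 hE,
    show (27, 0) = (1 + 26, 0) from rfl, h27] at h28
  have h29 := sat_and (sat_blocks hE (i := 28) rfl 0 Nat.one_pos)
  rw [List.forall_mem_cons, List.forall_mem_cons, forall_nil, and_true, w4 hE, w8 hE] at h29
  have h30 := sat_or (sat_blocks hE (i := 29) rfl 0 Nat.one_pos)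
  rw [exists_cons, exists_cons, exists_nil, or_false, w7 hE,
    show (29, 0) = (1 + 28, 0) from rfl, h29] at h30
  have h31 := sat_and (sat_blocks hE (i := 30) rfl 0 Nat.one_pos)
  rw [List.forall_mem_cons, List.forall_mem_cons, forall_nil, and_true, w3 hE,
    show (30, 0) = (1 + 29, 0) from rfl, h30] at h31
  have h32 := sat_or (sat_blocks hE (i := 31) rfl 0 Nat.one_pos)
  rw [exists_cons, proper_lev hE, show (31, 0) = (1 + 30, 0) from rfl, h31] at h32
  have h33 := sat_and (sat_blocks hE (i := 32) rfl 0 Nat.one_pos)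
  rw [List.forall_mem_cons, List.forall_mem_cons, forall_nil, and_true, w13 hE,
    show (32, 0) = (1 + 31, 0) from rfl, h32] at h33
  have h34 := sat_or (sat_blocks hE (i := 33) rfl 0 Nat.one_pos)
  rw [exists_cons, exists_cons, exists_cons, exists_cons, exists_nil, or_false,
    show (23, 0) = (1 + 22, 0) from rfl, h23, show (25, 0) = (1 + 24, 0) from rfl, h25,
    show (28, 0) = (1 + 27, 0) from rfl, h28, show (33, 0) = (1 + 32, 0) from rfl, h33] at h34
  rw [show (34, 0) = (1 + 33, 0) from rfl, h34]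
  unfold Ill
  rw [and_assoc]

theorem w35 (hE : ∀ g ∈ toG 1 (blocks m G O), GSat E g) {i : ℕ} (hi : i < 3 * m + 2) :
    E (35, i) = true ↔ Ill m (fun i => E (0, i)) ∧ E (0, i) = true := by
  have h := sat_and (sat_blocks hE (i := 34) rfl i hi)
  rw [List.forall_mem_cons, List.forall_mem_cons, forall_nil, and_true, w34 hE] at h
  exact h

theorem w36 (hE : ∀ g ∈ toG 1 (blocks m G O), GSat E g) {t : ℕ} (ht : t < 3 * m) :
    E (36, t) = true ↔ PBit m (fun i => E (0, i)) (t + 1) := by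
  have h := sat_and (sat_blocks hE (i := 35) rfl t ht)
  rw [List.forall_mem_cons, List.forall_mem_cons, forall_nil, and_true, w9 hE ht] at h
  rw [show (36, t) = (1 + 35, t) from rfl, h]
  unfold PBit
  rcases (show (t + 1) % 3 = 0 ∨ (t + 1) % 3 = 1 ∨ (t + 1) % 3 = 2 by omega) with h0 | h0 | h0
  · rw [if_neg (by omega), if_neg (by omega), w17 hE]
    simp only [h0]
    constructor
    · rintro ⟨h1, h2⟩
      exact Or.inr ⟨by omega, by omega, h2, Or.inl ⟨trivial, h1⟩⟩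
    · rintro (⟨h1, _⟩ | ⟨_, _, h1, ⟨_, h2⟩ | ⟨h2, _⟩ | ⟨h2, _⟩⟩)
      · omega
      · exact ⟨h2, h1⟩
      · omega
      · omega
  · rw [if_pos h0, w21 hE]
    simp only [h0]
    constructor
    · rintro ⟨h1, h2⟩
      exact Or.inr ⟨by omega, by omega, h2, Or.inr (Or.inl ⟨trivial, h1⟩)⟩
    · rintro (⟨h1, _⟩ | ⟨_, _, h1, ⟨h2, _⟩ | ⟨_, h2⟩ | ⟨h2, _⟩⟩)
      · omega
      · omega
      · exact ⟨h2, h1⟩
      · omega
  · rw [if_neg (by omega), if_pos h0, w13 hE]
    simp only [h0]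
    constructor
    · rintro ⟨h1, h2⟩
      exact Or.inr ⟨by omega, by omega, h2, Or.inr (Or.inr ⟨trivial, h1⟩)⟩
    · rintro (⟨h1, _⟩ | ⟨_, _, h1, ⟨h2, _⟩ | ⟨h2, _⟩ | ⟨_, h2⟩⟩)
      · omega
      · omega
      · omega
      · exact ⟨h2, h1⟩

theorem w20' (hE : ∀ g ∈ toG 1 (blocks m G O), GSat E g) :
    E (20, 0) = true ↔ PBit m (fun i => E (0, i)) 0 := by
  rw [w20 hE]
  unfold PBit
  simp

theorem w37 (hE : ∀ g ∈ toG 1 (blocks m G O), GSat E g) {i : ℕ} (hi : i ≤ m) :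
    E (37, i) = true ↔ Q m (fun i => E (0, i)) ∨
      ∃ j ≤ m, j ≠ i ∧ Ful m (fun i => E (0, i)) j := by
  have h := sat_or (sat_blocks hE (i := 36) rfl i (Nat.lt_succ_of_le hi))
  rw [exists_cons, exists_cons, exists_nil, or_false, w19 hE, w5 hE hi] at h
  exact h

theorem w39 (hE : ∀ g ∈ toG 1 (blocks m G O), GSat E g) : E (39, 0) = false := by
  have h := sat_and (sat_blocks hE (i := 38) rfl 0 Nat.one_pos)
  rw [List.forall_mem_cons, List.forall_mem_cons, forall_nil, and_true, w14 hE, w16 hE] at h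
  rw [← Bool.not_eq_true, show (39, 0) = (1 + 38, 0) from rfl, h]
  tauto

theorem w40 (hE : ∀ g ∈ toG 1 (blocks m G O), GSat E g) : E (40, 0) = true := by
  have h := sat_or (sat_blocks hE (i := 39) rfl 0 Nat.one_pos)
  rw [exists_cons, exists_cons, exists_nil, or_false, w14 hE, w16 hE] at h
  rw [show (40, 0) = (1 + 39, 0) from rfl, h]
  tauto

end

end Pool.Agent.MPa0a715
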